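import Pool.Agent.H33.G.R_seed8.Y819.MW.D
import Pool.Agent.H33.G.R_seed8.W36.UM
import Pool.Agent.H33.G.R_seed8.H828R3.GP.Three

/-! Orbits of the `3x+d` maps which stay above `y`: general `d`. -/

set_option autoImplicit false

namespace Pool.Agent.H33.PD

open Finset Filter Topology Pool.Agent.H499R2.CO Pool.Agent.W38.PR
open Pool.Agent.H319R2 (beta beta_lt)
open Classical

/-- all elements of the orbit are larger than `y` in absolute value -/
def Sd (d : ℤ) (y : ℝ) (x : ℤ) : Prop := ∀ n : ℕ, y < |(((Tz d)^[n] x : ℤ) : ℝ)|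

section count

open Pool.Agent.H319R3.GC (Adm Tm PP)
open Pool.Agent.H828R3.GP (m3 r3 adm3 Tm3)
open Pool.Agent.W36 (kr power_savingU)

theorem kr_r3 (d : ℤ) : kr d (r3 1) = r3 d := by
  funext i
  unfold kr r3
  split_ifs <;> simp

theorem PP_m3 : PP 2 m3 = 3 := by
  unfold PP m3
  simp [Finset.prod_range_succ]

/-- the count of all integers whose orbit stays above `y`, uniformly in `d` -/
theorem count_all {c : ℝ} (hc0 : 0 < c) (hc : c < 1 - beta) :
    ∃ C : ℝ, 0 < C ∧ ∀ d : ℤ, d % 2 = 1 → ¬ (3 : ℤ) ∣ d → ∀ X y : ℝ, 1 ≤ X → 0 < y →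
      ({x : ℤ | |(x : ℝ)| ≤ X ∧ Sd d y x}.ncard : ℝ)
        ≤ C * X * (|(d : ℝ)| / y) ^ c := by
  have hc' : c < 1 - Pool.Agent.H319R2.beta := hc
  obtain ⟨η, hη1, hη2⟩ := exists_between (max_lt (by linarith : Pool.Agent.H319R2.beta < 1 - c)
    (by
        have h1 : (0 : ℝ) ≤ Pool.Agent.H319R2.beta := by
          unfold Pool.Agent.H319R2.beta
          apply div_nonneg _ (Real.log_nonneg (by norm_num))
          apply Real.binEntropy_nonneg
          · exact div_nonneg (Real.log_nonneg (by norm_num)) (Real.log_nonneg (by norm_num))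
          · rw [div_le_one (Real.log_pos (by norm_num))]
            exact Real.log_le_log (by norm_num) (by norm_num)
        linarith : (0 : ℝ) < 1 - c))
  have hb : Pool.Agent.H319R2.beta < η := (le_max_left _ _).trans_lt hη1
  have h0 : 0 < η := (le_max_right _ _).trans_lt hη1
  obtain ⟨s, hs, hsum⟩ := Pool.Agent.H319R2.Tk.cond η hb
  obtain ⟨C, hC, h⟩ := power_savingU (adm3 (k := 1) odd_one) (s := s) (η := η) hs h0.le (by linarith) (by
    rw [Finset.sum_range_succ, Finset.sum_range_one]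
    simp only [m3]
    norm_num
    have e : (1 / 2 : ℝ) ^ s = 2⁻¹ ^ s := by norm_num
    rw [e] at hsum
    first
      | exact hsum.le
      | (refine le_trans (le_of_eq ?_) hsum.le; norm_num)) hc0 (by linarith)
  refine ⟨C, hC, fun d hd hd3 X y hX hy => ?_⟩
  have hodd : Odd d := Int.odd_iff.2 hd
  have hcop : IsCoprime d (PP 2 m3 : ℤ) := by
    rw [PP_m3]
    have h3 : Prime (3 : ℤ) := Int.prime_three
    exact_mod_cast ((Prime.coprime_iff_not_dvd h3).2 hd3).symm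
  have h1 := h d (by rintro rfl; simp at hd) hcop (by rw [kr_r3]; exact adm3 hodd) X y hX hy
  rw [kr_r3, Tm3] at h1
  exact h1

end count

/-- the positive integers up to `N` whose orbit stays above `y` -/
theorem count_pos {c : ℝ} (hc0 : 0 < c) (hc : c < 1 - beta) :
    ∃ C : ℝ, 0 < C ∧ ∀ d : ℤ, d % 2 = 1 → ¬ (3 : ℤ) ∣ d → ∀ (N : ℕ) (y : ℝ), 1 ≤ N → 0 < y →
      (#{n ∈ Icc 1 N | Sd d y ((n : ℕ) : ℤ)} : ℝ) ≤ C * N * (|(d : ℝ)| / y) ^ c := by
  obtain ⟨C, hC, h⟩ := count_all hc0 hc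
  refine ⟨C, hC, fun d hd hd3 N y hN hy => ?_⟩
  have hX : (1 : ℝ) ≤ N := by exact_mod_cast hN
  refine le_trans ?_ (h d hd hd3 N y hX hy)
  have hfin : {x : ℤ | |(x : ℝ)| ≤ (N : ℝ) ∧ Sd d y x}.Finite := by
    apply (Set.finite_Icc (-(N : ℤ)) (N : ℤ)).subset
    rintro x ⟨hx, -⟩
    have h1 := abs_le.1 hx
    rw [Set.mem_Icc]
    constructor
    · have : ((-(N : ℤ) : ℤ) : ℝ) ≤ x := by push_cast; linarith
      exact_mod_cast this
    · have : (x : ℝ) ≤ ((N : ℤ) : ℝ) := by push_cast; linarith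
      exact_mod_cast this
  have hsub : ((({n ∈ Icc 1 N | Sd d y ((n : ℕ) : ℤ)} : Finset ℕ).image (fun n : ℕ => (n : ℤ)) : Finset ℤ) : Set ℤ) ⊆
      {x : ℤ | |(x : ℝ)| ≤ (N : ℝ) ∧ Sd d y x} := by
    intro x hx
    rw [mem_coe, mem_image] at hx
    obtain ⟨n, hn, rfl⟩ := hx
    rw [mem_filter, mem_Icc] at hn
    refine ⟨?_, hn.2⟩
    have : (n : ℝ) ≤ N := by exact_mod_cast hn.1.2
    simpa using this
  have h1 := Set.ncard_le_ncard hsub hfin
  rw [Set.ncard_coe_finset, card_image_of_injective _ Nat.cast_injective] at h1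
  exact_mod_cast h1

/-! ### size of the iterates -/

theorem Tz_half' {d x : ℤ} (hd : d % 2 = 1) (hx : |d| ≤ |x|) : |x| ≤ 2 * |Tz d x| := by
  have e : 2 * |Tz d x| = |2 * Tz d x| := by rw [abs_mul]; norm_num
  rw [e]
  unfold Tz
  split_ifs with h
  · have : 2 * (x / 2) = x := by omega
    rw [this]
  · have h1 : 2 * ((3 * x + d) / 2) = 3 * x + d := by omega
    rw [h1]
    have h2 : |3 * x| ≤ |3 * x + d| + |d| := by
      have := abs_sub (3 * x + d) d
      simpa using this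
    have h3 : |3 * x| = 3 * |x| := by rw [abs_mul]; norm_num
    have h4 : 0 ≤ |x| := abs_nonneg x
    linarith

theorem Tz_low' {d : ℤ} (hd : d % 2 = 1) (n : ℕ) : ∀ {x : ℤ}, 2 ^ n * |d| ≤ |x| →
    |x| ≤ 2 ^ n * |(Tz d)^[n] x| := by
  induction n with
  | zero => intro x hx; simp
  | succ n ih =>
    intro x hx
    have hd0 : 0 ≤ |d| := abs_nonneg d
    have h0 : (1 : ℤ) ≤ 2 ^ n := one_le_pow₀ (by norm_num)
    have h2 : (2 : ℤ) ^ (n + 1) * |d| = 2 * (2 ^ n * |d|) := by rw [pow_succ]; ring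
    have h3 : |d| ≤ 2 ^ n * |d| := le_mul_of_one_le_left hd0 h0
    have h1 := Tz_half' (x := x) hd (by linarith)
    have h4 := ih (x := Tz d x) (by linarith)
    rw [Function.iterate_succ_apply, pow_succ]
    linarith

/-- coalescence carries over the property of staying above `y` -/
theorem Sd_shift {d : ℤ} (hd : d % 2 = 1) {y : ℝ} (hy : |(d : ℝ)| ≤ y) {k h : ℕ} {p : ℕ}
    (hSt : Sd d y p) (hpk : y * 2 ^ k < (p : ℝ)) (hs : ¬ surv d k (0, d.sign * (h : ℤ)) (p : ℕ)) :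
    Sd d y ((p + d.natAbs * h : ℕ) : ℤ) := by
  obtain ⟨t, htk, ht⟩ := coal (d := d) hd k 0 (d.sign * (h : ℤ)) (p : ℤ) hs
  have e : (3 : ℤ) ^ 0 * (p : ℤ) + d * (d.sign * (h : ℤ)) = ((p + d.natAbs * h : ℕ) : ℤ) := by
    rw [Nat.cast_add, Nat.cast_mul, ← mul_assoc, Int.mul_sign_self, pow_zero, one_mul]
  rw [e] at ht
  intro n
  by_cases hn : t ≤ n
  · obtain ⟨d', rfl⟩ : ∃ d', n = d' + t := ⟨n - t, by omega⟩
    rw [Function.iterate_add_apply, ← ht, ← Function.iterate_add_apply]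
    exact hSt (d' + t)
  · push Not at hn
    have h4 : (2 : ℝ) ^ n ≤ 2 ^ k := pow_le_pow_right₀ (by norm_num) (by omega)
    have h6 : (p : ℝ) ≤ ((p + d.natAbs * h : ℕ) : ℝ) := by
      exact_mod_cast Nat.le_add_right p (d.natAbs * h)
    have hy0 : 0 ≤ y := (abs_nonneg _).trans hy
    have h1 : 2 ^ n * |d| ≤ |((p + d.natAbs * h : ℕ) : ℤ)| := by
      have h7 : (2 : ℝ) ^ n * |(d : ℝ)| ≤ ((p + d.natAbs * h : ℕ) : ℝ) := by
        calc (2 : ℝ) ^ n * |(d : ℝ)| ≤ 2 ^ k * y := mul_le_mul h4 hy (abs_nonneg _) (by positivity)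
          _ = y * 2 ^ k := mul_comm _ _
          _ ≤ p := hpk.le
          _ ≤ _ := h6
      rw [Nat.abs_cast]
      have h8 : (((2 : ℤ) ^ n * |d| : ℤ) : ℝ) ≤ ((((p + d.natAbs * h : ℕ) : ℤ)) : ℝ) := by
        rw [Int.cast_mul, Int.cast_pow, Int.cast_abs, Int.cast_natCast]
        exact h7
      exact_mod_cast h8
    have h2 := Tz_low' hd n h1
    rw [Nat.abs_cast] at h2
    have h3 : ((p + d.natAbs * h : ℕ) : ℝ) ≤ 2 ^ n * |(((Tz d)^[n] ((p + d.natAbs * h : ℕ) : ℤ) : ℤ) : ℝ)| := by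
      have h8 : ((((p + d.natAbs * h : ℕ) : ℤ)) : ℝ) ≤
          ((2 ^ n * |(Tz d)^[n] ((p + d.natAbs * h : ℕ) : ℤ)| : ℤ) : ℝ) := Int.cast_le.2 h2
      rw [Int.cast_mul, Int.cast_pow, Int.cast_abs, Int.cast_natCast] at h8
      exact h8
    have h7 : y * 2 ^ k < 2 ^ k * |(((Tz d)^[n] ((p + d.natAbs * h : ℕ) : ℤ) : ℤ) : ℝ)| := by
      calc y * 2 ^ k < (p : ℝ) := hpk
        _ ≤ _ := h6
        _ ≤ _ := h3
        _ ≤ _ := mul_le_mul_of_nonneg_right h4 (abs_nonneg _)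
    have h8 : (0 : ℝ) < 2 ^ k := by positivity
    rw [mul_comm] at h7
    exact lt_of_mul_lt_mul_left h7 h8.le

/-- change of the sign -/
theorem Tz_neg {d : ℤ} (hd : d % 2 = 1) (x : ℤ) : Tz d (-x) = - Tz (-d) x := by
  unfold Tz
  split_ifs with h1 h2 h2 <;> omega

theorem Tz_neg_iter {d : ℤ} (hd : d % 2 = 1) (n : ℕ) : ∀ x : ℤ,
    (Tz d)^[n] (-x) = - (Tz (-d))^[n] x := by
  induction n with
  | zero => intro x; rfl
  | succ n ih =>
    intro x
    rw [Function.iterate_succ_apply, Function.iterate_succ_apply, Tz_neg hd, ih]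

theorem Sd_neg {d : ℤ} (hd : d % 2 = 1) (y : ℝ) (x : ℤ) : Sd d y (-x) ↔ Sd (-d) y x := by
  unfold Sd
  apply forall_congr'
  intro n
  rw [Tz_neg_iter hd]
  push_cast
  rw [abs_neg]

/-! ### sums over elements with many shifts which do not coalesce -/

/-- elements for which the pair with the shift `h` does not coalesce -/
theorem w_surv' {d : ℤ} (hd : d % 2 = 1) {k N : ℕ} (w : ℕ → ℝ) (hw : ∀ n, 0 ≤ w n) {M : ℝ}
    (hA : ∀ a, a < 2 ^ k → ∑ n ∈ Icc 1 N with n % 2 ^ k = a, w n ≤ M / 2 ^ k) (s : ℕ × ℤ) :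
    ∑ n ∈ Icc 1 N with surv d k s (n : ℕ), w n ≤ M * q step (0, 0) k s := by
  have h1 := Pool.Agent.Y819.MW.w_classes w hw hA (surv d k s) (fun x m => surv_periodic hd k s x m)
  have h2 := count_surv (d := d) hd k s
  have h3 : (#{a ∈ range (2 ^ k) | surv d k s ((a : ℕ) : ℤ)} : ℝ) = 2 ^ k * q step (0, 0) k s := by
    rw [← h2, card_filter]
    push_cast
    rfl
  rw [h3] at h1
  refine h1.trans (le_of_eq ?_)
  have : (0 : ℝ) < 2 ^ k := by positivity
  field_simp

/-- elements with many non-coalescing shifts -/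
theorem w_bad' {d : ℤ} (hd : d % 2 = 1) {k H N : ℕ} (w : ℕ → ℝ) (hw : ∀ n, 0 ≤ w n) {M Q : ℝ}
    (hM : 0 ≤ M)
    (hA : ∀ a, a < 2 ^ k → ∑ n ∈ Icc 1 N with n % 2 ^ k = a, w n ≤ M / 2 ^ k) (hH : 1 ≤ H)
    (r : ℕ → ℤ) (hQ : ∀ h ∈ Icc 1 H, q step (0, 0) k (0, r h) ≤ Q) :
    ∑ n ∈ Icc 1 N with (H : ℝ) / 2 < #{h ∈ Icc 1 H | surv d k (0, r h) (n : ℕ)}, w n ≤
      2 * M * Q := by
  have hHr : (0 : ℝ) < H := by exact_mod_cast hH
  set B := ({n ∈ Icc 1 N | (H : ℝ) / 2 <
    #{h ∈ Icc 1 H | surv d k (0, r h) (n : ℕ)}} : Finset ℕ) with hB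
  have h1 : (∑ n ∈ B, w n) * (H / 2) ≤
      ∑ n ∈ Icc 1 N, w n * (#{h ∈ Icc 1 H | surv d k (0, r h) (n : ℕ)} : ℝ) := by
    calc (∑ n ∈ B, w n) * (H / 2) = ∑ n ∈ B, w n * ((H : ℝ) / 2) := by rw [sum_mul]
      _ ≤ ∑ n ∈ B, w n * (#{h ∈ Icc 1 H | surv d k (0, r h) (n : ℕ)} : ℝ) := by
          apply sum_le_sum
          intro p hp
          rw [hB, mem_filter] at hp
          exact mul_le_mul_of_nonneg_left hp.2.le (hw p)
      _ ≤ _ := sum_le_sum_of_subset_of_nonneg (filter_subset _ _)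
          (fun n _ _ => mul_nonneg (hw n) (by positivity))
  have h2 : ∑ n ∈ Icc 1 N, w n * (#{h ∈ Icc 1 H | surv d k (0, r h) (n : ℕ)} : ℝ) =
      ∑ h ∈ Icc 1 H, ∑ n ∈ Icc 1 N with surv d k (0, r h) (n : ℕ), w n := by
    have e1 : ∀ n ∈ Icc 1 N, w n * (#{h ∈ Icc 1 H | surv d k (0, r h) (n : ℕ)} : ℝ) =
        ∑ h ∈ Icc 1 H, if surv d k (0, r h) (n : ℕ) then w n else 0 := by
      intro n _
      rw [← sum_filter, sum_const, nsmul_eq_mul, mul_comm]
    rw [sum_congr rfl e1, sum_comm]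
    apply sum_congr rfl
    intro h _
    rw [← sum_filter]
  have h3 : ∑ h ∈ Icc 1 H, ∑ n ∈ Icc 1 N with surv d k (0, r h) (n : ℕ), w n ≤
      ∑ h ∈ Icc 1 H, M * Q := by
    apply sum_le_sum
    intro h hh
    refine (w_surv' hd w hw hA (0, r h)).trans ?_
    exact mul_le_mul_of_nonneg_left (hQ h hh) hM
  rw [sum_const, nsmul_eq_mul, Nat.card_Icc, Nat.add_sub_cancel] at h3
  have h4 : (∑ n ∈ B, w n) * (H / 2) ≤ H * (M * Q) := by linarith
  have h5 : (H : ℝ) * (M * Q) = (2 * M * Q) * (H / 2) := by ring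
  rw [h5] at h4
  exact le_of_mul_le_mul_right h4 (by positivity)

/-- blocks in the classes modulo `D` -/
theorem w_block' {H N D : ℕ} (hD : 1 ≤ D) (hH : 2 ≤ H) (w : ℕ → ℝ) {M : ℝ} (hM : 0 ≤ M)
    (G : Finset ℕ) (E : ℕ → Prop)
    (hG : ∀ p ∈ G, p ≤ N ∧ (H : ℝ) / 2 ≤ #{h ∈ Icc 1 H | E (p + D * h)})
    (hB : ∀ a, a < D → ∀ j, ∑ n ∈ G with n % D = a ∧ n / D / H = j, w n ≤ M * H) :
    ∑ n ∈ G, w n ≤ 4 * M * #{n ∈ Icc 1 (N + 2 * D * H + D) | E n} := by
  -- the class of `a`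
  have hclass : ∀ a, a < D → ∑ n ∈ G with n % D = a, w n ≤
      4 * M * #{i ∈ Icc 1 (N / D + 2 * H) | E (a + D * i)} := by
    intro a ha
    set Ga := (G.filter (fun n => n % D = a)).image (fun n => n / D) with hGa
    have hinj : Set.InjOn (fun n => n / D) (G.filter (fun n => n % D = a) : Finset ℕ) := by
      intro n hn n' hn' h
      rw [mem_coe, mem_filter] at hn hn'
      beta_reduce at h
      rw [← Nat.mod_add_div n D, ← Nat.mod_add_div n' D, hn.2, hn'.2, h]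
    have hdec : ∀ n, n % D = a → a + D * (n / D) = n := by
      intro n hn
      have := Nat.mod_add_div n D
      rw [hn] at this
      exact this
    have hsum : ∀ (P : ℕ → Prop), ∑ i ∈ Ga with P i, w (a + D * i) =
        ∑ n ∈ G with n % D = a ∧ P (n / D), w n := by
      intro P
      have e1 : Ga.filter P = (G.filter (fun n => n % D = a ∧ P (n / D))).image (fun n => n / D) := by
        ext i
        rw [hGa, mem_filter, mem_image, mem_image]
        constructor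
        · rintro ⟨⟨n, hn, rfl⟩, hP⟩
          rw [mem_filter] at hn
          exact ⟨n, mem_filter.2 ⟨hn.1, hn.2, hP⟩, rfl⟩
        · rintro ⟨n, hn, rfl⟩
          rw [mem_filter] at hn
          exact ⟨⟨n, mem_filter.2 ⟨hn.1, hn.2.1⟩, rfl⟩, hn.2.2⟩
      rw [e1, sum_image]
      · apply sum_congr rfl
        intro n hn
        rw [mem_filter] at hn
        rw [hdec n hn.2.1]
      · intro n hn n' hn' h
        rw [mem_coe, mem_filter] at hn hn'
        apply hinj _ _ h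
        · rw [mem_coe, mem_filter]; exact ⟨hn.1, hn.2.1⟩
        · rw [mem_coe, mem_filter]; exact ⟨hn'.1, hn'.2.1⟩
    have h1 := Pool.Agent.Y819.MW.w_block (N := N / D) hH (fun i => w (a + D * i)) hM Ga
      (fun i => E (a + D * i)) (by
        intro i hi
        rw [hGa, mem_image] at hi
        obtain ⟨n, hn, rfl⟩ := hi
        rw [mem_filter] at hn
        obtain ⟨h2, h3⟩ := hG n hn.1
        refine ⟨Nat.div_le_div_right h2, ?_⟩
        refine h3.trans (le_of_eq ?_)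
        have e : ∀ h, a + D * (n / D + h) = n + D * h := by
          intro h
          rw [mul_add, ← add_assoc, hdec n hn.2]
        simp only [e]) (by
        intro j
        refine (le_of_eq ?_).trans (hB a ha j)
        convert hsum (fun i => i / H = j))
    have h2 := hsum (fun _ => True)
    simp only [and_true, filter_true_of_mem, implies_true] at h2
    rw [← h2]
    refine le_trans (le_of_eq ?_) h1
    rfl
  have hsplit : ∑ n ∈ G, w n = ∑ a ∈ range D, ∑ n ∈ G with n % D = a, w n :=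
    (sum_fiberwise_of_maps_to (fun n _ => mem_range.2 (Nat.mod_lt _ (by omega))) _).symm
  rw [hsplit]
  have h1 : ∑ a ∈ range D, ∑ n ∈ G with n % D = a, w n ≤
      ∑ a ∈ range D, 4 * M * (#{i ∈ Icc 1 (N / D + 2 * H) | E (a + D * i)} : ℝ) :=
    sum_le_sum fun a ha => hclass a (mem_range.1 ha)
  refine h1.trans ?_
  rw [← mul_sum]
  apply mul_le_mul_of_nonneg_left _ (by positivity)
  have h2 : ∑ a ∈ range D, #{i ∈ Icc 1 (N / D + 2 * H) | E (a + D * i)} ≤
      #{n ∈ Icc 1 (N + 2 * D * H + D) | E n} := by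
    have e1 : ∑ a ∈ range D, #{i ∈ Icc 1 (N / D + 2 * H) | E (a + D * i)} =
        ∑ a ∈ range D, #(({i ∈ Icc 1 (N / D + 2 * H) | E (a + D * i)} : Finset ℕ).image
          (fun i => a + D * i)) := by
      apply sum_congr rfl
      intro a _
      rw [card_image_of_injOn]
      intro i _ i' _ h
      beta_reduce at h
      have : D * i = D * i' := by omega
      exact Nat.eq_of_mul_eq_mul_left (by omega) this
    rw [e1, ← card_biUnion]
    · apply card_le_card
      intro n hn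
      rw [mem_biUnion] at hn
      obtain ⟨a, ha, hn⟩ := hn
      rw [mem_image] at hn
      obtain ⟨i, hi, rfl⟩ := hn
      rw [mem_filter, mem_Icc] at hi
      rw [mem_range] at ha
      rw [mem_filter, mem_Icc]
      refine ⟨⟨?_, ?_⟩, hi.2⟩
      · have : 1 * 1 ≤ D * i := Nat.mul_le_mul hD hi.1.1
        omega
      · have h3 : D * i ≤ D * (N / D + 2 * H) := Nat.mul_le_mul_left D hi.1.2
        have h4 : D * (N / D) ≤ N := Nat.mul_div_le N D
        have h5 : D * (N / D + 2 * H) = D * (N / D) + 2 * D * H := by ring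
        omega
    · intro a ha b hb hab
      rw [Function.onFun, disjoint_left]
      intro n hn hn'
      rw [mem_image] at hn hn'
      obtain ⟨i, _, rfl⟩ := hn
      obtain ⟨i', _, h⟩ := hn'
      rw [mem_coe, mem_range] at ha hb
      apply hab
      have h3 : (b + D * i') % D = b := by rw [Nat.add_mul_mod_self_left, Nat.mod_eq_of_lt hb]
      have h4 : (a + D * i) % D = a := by rw [Nat.add_mul_mod_self_left, Nat.mod_eq_of_lt ha]
      rw [h, h4] at h3
      exact h3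
  exact_mod_cast h2

end Pool.Agent.H33.PD
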