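import Pool.Agent.H33.PD.A

/-! The transfer theorem for weights, for the `3x+d` maps, uniformly in `d`. -/

set_option autoImplicit false

namespace Pool.Agent.H33.PD

open Finset Filter Topology Pool.Agent.H499R2.CO Pool.Agent.W38.PR
open Pool.Agent.H319R2 (beta beta_lt)
open Classical

theorem beta_nonneg : 0 ≤ beta := by
  unfold beta
  apply div_nonneg _ (Real.log_nonneg (by norm_num))
  apply Real.binEntropy_nonneg
  · exact div_nonneg (Real.log_nonneg (by norm_num)) (Real.log_nonneg (by norm_num))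
  · rw [div_le_one (Real.log_pos (by norm_num))]
    exact Real.log_le_log (by norm_num) (by norm_num)

theorem core_d {c κ C1 C2 δ : ℝ} (hc0 : 0 < c) (hc : c < 1 - beta) (hκ : 0 ≤ κ) (hC1 : 0 < C1)
    (hC2 : 0 < C2) (hδ0 : 0 < δ) (hδ1 : δ ≤ 1) :
    ∃ C : ℝ, 0 < C ∧ ∀ d : ℤ, d % 2 = 1 → ¬ (3 : ℤ) ∣ d → ∀ (N : ℕ) (y : ℝ) (w : ℕ → ℝ) (m : ℝ),
    2 ≤ N → (d.natAbs : ℝ) ≤ y → (d.natAbs : ℝ) ≤ (N : ℝ) ^ (1 - δ) →
    (∀ n, 0 ≤ w n ∧ w n ≤ 1) → 0 < m → 1 ≤ C2 * (Real.log N) ^ κ * m →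
    (∀ k : ℕ, 1 ≤ k → (2 : ℝ) ^ k ≤ (N : ℝ) ^ (1 / 2 : ℝ) → ∀ a, a < 2 ^ k →
      ∑ n ∈ Icc 1 N with n % 2 ^ k = a, w n ≤ C1 * m * N / 2 ^ k) →
    (∀ H : ℕ, 2 ≤ H → (H : ℝ) ≤ (N : ℝ) ^ (1 / 2 : ℝ) → (d.natAbs : ℝ) * H ≤ N →
      ∀ a, a < d.natAbs → ∀ j,
      ∑ n ∈ Icc 1 N with n % d.natAbs = a ∧ n / d.natAbs / H = j, w n ≤
        C1 * m * (Real.log N / Real.log H) ^ κ * H) →
    ∑ n ∈ Icc 1 N with Sd d y ((n : ℕ) : ℤ), w n ≤
      C * (m * N) * (√ (1 + Real.log (y / d.natAbs)) / (y / d.natAbs) ^ (c / (2 * κ + 1))) := by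
  obtain ⟨C0, hC0, hE0⟩ := count_pos hc0 hc
  obtain ⟨Cq, hCq, hq⟩ := q_theta
  have hc1 : c ≤ 1 := by
    have := beta_nonneg
    linarith
  set e : ℝ := 2 * κ + 1 with he
  have he1 : 1 ≤ e := by rw [he]; linarith
  have he0 : 0 < e := by linarith
  have hce : c / e ≤ 1 := by rw [div_le_one he0]; linarith
  set K : ℝ := (4 * e / c + 100 * Cq + 12) / δ with hK
  have hec : 0 < 4 * e / c := by positivity
  have hKδ : K * δ = 4 * e / c + 100 * Cq + 12 := by rw [hK]; field_simp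
  have hKc : 4 * e / c ≤ K * δ := by rw [hKδ]; linarith
  have hKq : 100 * Cq ≤ K * δ := by rw [hKδ]; linarith
  have hK12 : 12 ≤ K * δ := by rw [hKδ]; linarith
  have hK0 : 0 < K := by rw [hK]; positivity
  refine ⟨C0 * C2 * K ^ κ + C2 * (6 * (κ + 1) / δ) ^ κ + 4 * C1 * Cq + 16 * C0 * C1 * (6 / δ) ^ κ,
    by positivity, fun d hd hd3 N y w m hN2 hyd hdN hw hm hT hA hB => ?_⟩
  have hw0 : ∀ n, 0 ≤ w n := fun n => (hw n).1
  have hdne : d ≠ 0 := by rintro rfl; simp at hd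
  have hDn : 1 ≤ d.natAbs := Int.natAbs_pos.2 hdne
  have hDabs : ((d.natAbs : ℕ) : ℝ) = |(d : ℝ)| := by
    rw [Nat.cast_natAbs]; push_cast; rfl
  set D : ℝ := (d.natAbs : ℝ) with hD
  have hD1 : 1 ≤ D := by rw [hD]; exact_mod_cast hDn
  have hD0 : 0 < D := by linarith
  set Y : ℝ := y / D with hY
  have hY1 : 1 ≤ Y := by rw [hY, one_le_div hD0]; exact hyd
  have hY0 : 0 < Y := by linarith
  have hyY : y = Y * D := by rw [hY]; field_simp
  have hy0 : 0 < y := by linarith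
  have hE : ∀ N : ℕ, 1 ≤ N → (#{n ∈ Icc 1 N | Sd d y ((n : ℕ) : ℤ)} : ℝ) ≤ C0 * N / Y ^ c := by
    intro N hN
    refine (hE0 d hd hd3 N y hN hy0).trans (le_of_eq ?_)
    rw [← hDabs, hyY, show D / (Y * D) = Y⁻¹ by field_simp, Real.inv_rpow hY0.le]
    field_simp
  set X : ℝ := (N : ℝ) with hXdef
  have hX : 2 ≤ X := by rw [hXdef]; exact_mod_cast hN2
  have hX0 : 0 < X := by linarith
  have hX1 : 1 ≤ X := by linarith
  set L := Real.log X with hL
  have hL0 : 0 < L := Real.log_pos (by linarith)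
  have hN1 : 1 ≤ N := by omega
  have hly : 0 ≤ Real.log Y := Real.log_nonneg hY1
  set Z : ℝ := Y ^ (c / e) with hZ
  have hZ1 : 1 ≤ Z := Real.one_le_rpow hY1 (by positivity)
  have hZ0 : 0 < Z := by linarith
  have hZZ0 : 0 < Z ^ 2 := by positivity
  set T : ℝ := (Z ^ 2) ^ κ with hTdef
  have hT0 : 0 < T := Real.rpow_pos_of_pos hZZ0 _
  have hZe : Y ^ c = T * Z := by
    have e1 : T = Z ^ (2 * κ) := by
      rw [hTdef, ← Real.rpow_natCast, ← Real.rpow_mul hZ0.le]; norm_num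
    have e2 : T * Z = Z ^ e := by
      rw [he, Real.rpow_add hZ0, Real.rpow_one, e1]
    rw [e2, hZ, ← Real.rpow_mul hY0.le]
    congr 1
    field_simp
  have hlZ : Real.log Z = c / e * Real.log Y := by rw [hZ, Real.log_rpow hY0]
  set g : ℝ := √ (1 + Real.log Y) / Z with hg
  have hsq1 : 1 ≤ √ (1 + Real.log Y) := by
    rw [Real.one_le_sqrt]; linarith
  have hgZ : 1 / Z ≤ g := by rw [hg]; gcongr
  have hg0 : 0 < g := lt_of_lt_of_le (by positivity) hgZ
  have hmX : 0 < m * X := by positivity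
  have hsplit : (C0 * C2 * K ^ κ + C2 * (6 * (κ + 1) / δ) ^ κ + 4 * C1 * Cq +
      16 * C0 * C1 * (6 / δ) ^ κ) *
      (m * X) * g = C0 * C2 * K ^ κ * (m * X) * g + C2 * (6 * (κ + 1) / δ) ^ κ * (m * X) * g +
      4 * C1 * Cq * (m * X) * g + 16 * C0 * C1 * (6 / δ) ^ κ * (m * X) * g := by ring
  have hp1 : 0 ≤ C0 * C2 * K ^ κ * (m * X) * g := by positivity
  have hp2 : 0 ≤ C2 * (6 * (κ + 1) / δ) ^ κ * (m * X) * g := by positivity
  have hp3 : 0 ≤ 4 * C1 * Cq * (m * X) * g := by positivity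
  have hp4 : 0 ≤ 16 * C0 * C1 * (6 / δ) ^ κ * (m * X) * g := by positivity
  by_cases hcase : L < K * Z ^ 2
  · -- large `y`
    have h1 : ∑ n ∈ Icc 1 N with Sd d y ((n : ℕ) : ℤ), w n ≤ C0 * N / Y ^ c := by
      refine le_trans ?_ (hE N hN1)
      calc ∑ n ∈ Icc 1 N with Sd d y ((n : ℕ) : ℤ), w n
          ≤ ∑ n ∈ Icc 1 N with Sd d y ((n : ℕ) : ℤ), (1 : ℝ) := sum_le_sum fun n _ => (hw n).2
        _ = _ := by rw [sum_const, nsmul_eq_mul, mul_one]
    have h2 : L ^ κ ≤ K ^ κ * T := by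
      rw [hTdef, ← Real.mul_rpow hK0.le hZZ0.le]
      exact Real.rpow_le_rpow hL0.le hcase.le hκ
    have h3 : 1 ≤ C2 * (K ^ κ * T) * m := by
      refine hT.trans ?_
      gcongr
    have h4 : C0 * N / Y ^ c ≤ C0 * C2 * K ^ κ * (m * X) * (1 / Z) := by
      rw [hZe, ← hXdef]
      have e : C0 * C2 * K ^ κ * (m * X) * (1 / Z) = C0 * X / (T * Z) * (C2 * (K ^ κ * T) * m) := by
        field_simp
      rw [e]
      exact le_mul_of_one_le_right (by positivity) h3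
    have h5 : C0 * C2 * K ^ κ * (m * X) * (1 / Z) ≤ C0 * C2 * K ^ κ * (m * X) * g :=
      mul_le_mul_of_nonneg_left hgZ (by positivity)
    rw [hsplit]
    linarith
  · push Not at hcase
    have hZ2 : 1 ≤ Z ^ 2 := one_le_pow₀ hZ1
    have hLK : K ≤ L := by
      have : K * 1 ≤ K * Z ^ 2 := mul_le_mul_of_nonneg_left hZ2 hK0.le
      linarith
    have hLδ : K * δ ≤ δ * L := by
      have := mul_le_mul_of_nonneg_left hLK hδ0.le
      linarith
    have hL100 : 100 ≤ δ * L := by linarith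
    have hlogZ : K * Real.log Z ≤ L := by
      have h1 : Real.log Z ≤ Z ^ 2 := by
        have h2 := Real.log_le_sub_one_of_pos hZ0
        nlinarith
      exact (mul_le_mul_of_nonneg_left h1 hK0.le).trans hcase
    have hlogZ0 : 0 ≤ Real.log Z := Real.log_nonneg hZ1
    have hlogZδ : K * δ * Real.log Z ≤ δ * L := by
      have := mul_le_mul_of_nonneg_left hlogZ hδ0.le
      linarith
    -- `Y ≤ X^{δ/4}`
    have hyX : Real.log Y ≤ δ / 4 * L := by
      have h4 : 4 * e / c * Real.log Z ≤ δ * L :=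
        (mul_le_mul_of_nonneg_right hKc hlogZ0).trans hlogZδ
      rw [hlZ] at h4
      have h5 : 4 * e / c * (c / e * Real.log Y) = 4 * Real.log Y := by field_simp
      linarith
    have hZ12 : Real.log Z ≤ δ / 12 * L := by
      have h4 : 12 * Real.log Z ≤ δ * L := (mul_le_mul_of_nonneg_right hK12 hlogZ0).trans hlogZδ
      linarith
    -- parameters
    have hl2 := Real.log_two_gt_d9
    have hl2' := Real.log_two_lt_d9
    set k : ℕ := ⌊δ * L / (4 * Real.log 2)⌋₊ with hk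
    have hk1 : (k : ℝ) ≤ δ * L / (4 * Real.log 2) := Nat.floor_le (by positivity)
    have hk2 : δ * L / (4 * Real.log 2) < k + 1 := Nat.lt_floor_add_one _
    have hk3 : 0.35 * (δ * L) ≤ k := by
      have h1 : 0.36 * (δ * L) ≤ δ * L / (4 * Real.log 2) := by
        rw [le_div_iff₀ (by positivity)]
        have h2 : δ * L * Real.log 2 ≤ δ * L * 0.6931471808 :=
          mul_le_mul_of_nonneg_left hl2'.le (by positivity)
        linarith
      linarith
    have hk4 : (k : ℝ) * Real.log 2 ≤ δ / 4 * L := by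
      rw [le_div_iff₀ (by positivity)] at hk1
      linarith
    have hk5' : (2 : ℝ) ^ k ≤ X ^ (δ / 4 : ℝ) := by
      have h1 : Real.log ((2 : ℝ) ^ k) ≤ Real.log (X ^ (δ / 4 : ℝ)) := by
        rw [Real.log_pow, Real.log_rpow hX0]; linarith
      exact (Real.log_le_log_iff (by positivity) (by positivity)).1 h1
    have hX4 : X ^ (δ / 4 : ℝ) ≤ X ^ (1 / 2 : ℝ) :=
      Real.rpow_le_rpow_of_exponent_le hX1 (by linarith)
    have hk5 : (2 : ℝ) ^ k ≤ X ^ (1 / 2 : ℝ) := hk5'.trans hX4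
    have hkpos : 1 ≤ k := by
      have : (1 : ℝ) ≤ k := by linarith
      exact_mod_cast this
    set θ : ℝ := 1 / Z ^ 2 with hθ
    have hθ0 : 0 < θ := by positivity
    have hθ1 : θ ≤ 1 := by rw [hθ, div_le_one (by positivity)]; exact hZ2
    have hθL : K ≤ θ * L := by
      rw [hθ, div_mul_eq_mul_div, one_mul, le_div_iff₀ (by positivity)]; exact hcase
    have hθLδ : K * δ ≤ δ * (θ * L) := by
      have := mul_le_mul_of_nonneg_left hθL hδ0.le
      linarith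
    have hθk : 0.35 * (δ * (θ * L)) ≤ θ * k := by
      have := mul_le_mul_of_nonneg_left hk3 hθ0.le
      linarith
    have hθk10 : 10 ≤ θ * k := by linarith
    set H : ℕ := ⌊(2 : ℝ) ^ (θ * k)⌋₊ with hH
    obtain ⟨hH2, hHle, hHlog⟩ := log_half hθk10 hH
    have hHX4 : (H : ℝ) ≤ X ^ (δ / 4 : ℝ) := by
      refine hHle.trans (le_trans ?_ hk5')
      rw [← Real.rpow_natCast]
      apply Real.rpow_le_rpow_of_exponent_le (by norm_num)
      exact mul_le_of_le_one_left (by positivity) hθ1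
    have hHX : (H : ℝ) ≤ X ^ (1 / 2 : ℝ) := hHX4.trans hX4
    have hDX : D ≤ X := by
      refine hdN.trans ?_
      conv_rhs => rw [← Real.rpow_one X]
      exact Real.rpow_le_rpow_of_exponent_le hX1 (by linarith)
    have hDH : D * H ≤ X := by
      calc D * H ≤ X ^ (1 - δ) * X ^ (δ / 4 : ℝ) := by gcongr
        _ = X ^ (1 - δ + δ / 4) := by rw [← Real.rpow_add hX0]
        _ ≤ X ^ (1 : ℝ) := Real.rpow_le_rpow_of_exponent_le hX1 (by linarith)
        _ = X := Real.rpow_one X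
    have hlogH : δ * (θ * L) / 6 ≤ Real.log H := by
      have : 0 ≤ δ * (θ * L) := by positivity
      linarith
    have hlogH0 : 0 < Real.log H := by
      have : 0 < δ * (θ * L) / 6 := by positivity
      linarith
    -- the failure probability
    have hQ : ∀ h ∈ Icc 1 H, q step (0, 0) k (0, d.sign * ((h : ℕ) : ℤ)) ≤ 2 * Cq * g := by
      intro h hh
      rw [mem_Icc] at hh
      have h1 : |((d.sign * ((h : ℕ) : ℤ) : ℤ) : ℝ)| ≤ (2 : ℝ) ^ (θ * k) := by
        have h0 : |(d.sign * ((h : ℕ) : ℤ) : ℤ)| = h := by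
          rw [abs_mul, Int.abs_sign_of_ne_zero hdne, one_mul, Nat.abs_cast]
        have h0' : |((d.sign * ((h : ℕ) : ℤ) : ℤ) : ℝ)| = h := by
          rw [← Int.cast_abs, h0]; simp
        rw [h0']
        refine le_trans ?_ hHle
        exact_mod_cast hh.2
      have h2 := hq θ hθ0 hθ1 k (by linarith) 0 (d.sign * ((h : ℕ) : ℤ)) (by
        have : 0 ≤ θ * (k : ℝ) := by positivity
        simpa using this) h1
      refine h2.trans ?_
      have hsq : √ (θ * (1 + Real.log (1 / θ))) ≤ 2 * g := by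
        rw [hg, mul_div_assoc', le_div_iff₀ hZ0]
        have h3 : θ * (1 + Real.log (1 / θ)) * Z ^ 2 ≤ 2 ^ 2 * (1 + Real.log Y) := by
          have h4 : Real.log (1 / θ) = 2 * Real.log Z := by
            rw [hθ, one_div_one_div, Real.log_pow]; norm_num
          have h5 : θ * (1 + Real.log (1 / θ)) * Z ^ 2 = 1 + Real.log (1 / θ) := by
            rw [hθ]; field_simp
          rw [h5, h4, hlZ]
          have h6 : c / e * Real.log Y ≤ 1 * Real.log Y :=
            mul_le_mul_of_nonneg_right hce hly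
          linarith
        calc √ (θ * (1 + Real.log (1 / θ))) * Z = √ (θ * (1 + Real.log (1 / θ))) * √ (Z ^ 2) := by
              rw [Real.sqrt_sq hZ0.le]
          _ = √ (θ * (1 + Real.log (1 / θ)) * Z ^ 2) :=
              (Real.sqrt_mul' _ (sq_nonneg Z)).symm
          _ ≤ √ (2 ^ 2 * (1 + Real.log Y)) := Real.sqrt_le_sqrt h3
          _ = 2 * √ (1 + Real.log Y) := by
              rw [Real.sqrt_mul (by norm_num), Real.sqrt_sq (by norm_num)]
      calc Cq * √ (θ * (1 + Real.log (1 / θ))) ≤ Cq * (2 * g) :=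
            mul_le_mul_of_nonneg_left hsq (by linarith)
        _ = 2 * Cq * g := by ring
    have hbad := w_bad' hd (N := N) w hw0 (M := C1 * m * X) (by positivity)
      (fun a ha => hA k hkpos hk5 a ha) (by omega : 1 ≤ H) (fun h : ℕ => d.sign * ((h : ℕ) : ℤ)) hQ
    -- the good elements
    set Gd := ({n ∈ Icc 1 N | Sd d y ((n : ℕ) : ℤ) ∧ X ^ (1 - δ / 2 : ℝ) < (n : ℝ) ∧
      ¬ (H : ℝ) / 2 < #{h ∈ Icc 1 H | surv d k (0, d.sign * ((h : ℕ) : ℤ)) (n : ℕ)}} : Finset ℕ)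
      with hGd
    have hGdE : ∀ p ∈ Gd, p ≤ N ∧
        (H : ℝ) / 2 ≤ #{h ∈ Icc 1 H | (fun n : ℕ => Sd d y ((n : ℕ) : ℤ)) (p + d.natAbs * h)} := by
      intro p hp
      rw [hGd, mem_filter, mem_Icc] at hp
      obtain ⟨⟨hp1, hpN⟩, hpS, hpX, hpb⟩ := hp
      refine ⟨hpN, ?_⟩
      push Not at hpb
      have h1 : y * 2 ^ k < (p : ℝ) := by
        refine lt_of_le_of_lt ?_ hpX
        have h2 : Y ≤ X ^ (δ / 4 : ℝ) := by
          have : Real.log Y ≤ Real.log (X ^ (δ / 4 : ℝ)) := by rw [Real.log_rpow hX0]; linarith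
          exact (Real.log_le_log_iff hY0 (by positivity)).1 this
        rw [hyY]
        calc Y * D * 2 ^ k ≤ X ^ (δ / 4 : ℝ) * X ^ (1 - δ) * X ^ (δ / 4 : ℝ) := by gcongr
          _ = X ^ (1 - δ / 2 : ℝ) := by
              rw [← Real.rpow_add hX0, ← Real.rpow_add hX0]; congr 1; ring
      have h2 : ({h ∈ Icc 1 H | ¬ surv d k (0, d.sign * ((h : ℕ) : ℤ)) (p : ℕ)} : Finset ℕ) ⊆
          ({h ∈ Icc 1 H | (fun n : ℕ => Sd d y ((n : ℕ) : ℤ)) (p + d.natAbs * h)} : Finset ℕ) := by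
        intro h hh
        rw [mem_filter] at hh ⊢
        exact ⟨hh.1, Sd_shift hd (by rw [← hDabs]; exact hyd) hpS h1 hh.2⟩
      have h3 := card_le_card h2
      have h4 := card_filter_add_card_filter_not (s := Icc 1 H)
        (fun h : ℕ => surv d k (0, d.sign * ((h : ℕ) : ℤ)) (p : ℕ))
      rw [Nat.card_Icc, Nat.add_sub_cancel] at h4
      have h5 : (#{h ∈ Icc 1 H | surv d k (0, d.sign * ((h : ℕ) : ℤ)) (p : ℕ)} : ℝ) +
          #{h ∈ Icc 1 H | ¬ surv d k (0, d.sign * ((h : ℕ) : ℤ)) (p : ℕ)} = H := by exact_mod_cast h4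
      have h6 : (#{h ∈ Icc 1 H | ¬ surv d k (0, d.sign * ((h : ℕ) : ℤ)) (p : ℕ)} : ℝ) ≤
          #{h ∈ Icc 1 H | (fun n : ℕ => Sd d y ((n : ℕ) : ℤ)) (p + d.natAbs * h)} := by
        exact_mod_cast h3
      linarith
    have hratio : (L / Real.log H) ^ κ ≤ (6 / δ) ^ κ * T := by
      rw [hTdef, ← Real.mul_rpow (by positivity) hZZ0.le]
      apply Real.rpow_le_rpow (by positivity) _ hκ
      rw [div_le_iff₀ hlogH0]
      have h1 : 6 / δ * Z ^ 2 * (δ * (θ * L) / 6) ≤ 6 / δ * Z ^ 2 * Real.log H :=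
        mul_le_mul_of_nonneg_left hlogH (by positivity)
      have h2 : 6 / δ * Z ^ 2 * (δ * (θ * L) / 6) = L := by rw [hθ]; field_simp
      linarith
    have hG1 := w_block' (N := N) hDn hH2 w (M := C1 * m * ((6 / δ) ^ κ * T)) (by positivity) Gd
      (fun n : ℕ => Sd d y ((n : ℕ) : ℤ)) hGdE (by
        intro a ha j
        calc ∑ n ∈ Gd with n % d.natAbs = a ∧ n / d.natAbs / H = j, w n ≤
              ∑ n ∈ Icc 1 N with n % d.natAbs = a ∧ n / d.natAbs / H = j, w n := by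
              apply sum_le_sum_of_subset_of_nonneg
              · intro n hn
                rw [mem_filter] at hn ⊢
                rw [hGd, mem_filter] at hn
                exact ⟨hn.1.1, hn.2⟩
              · intro n _ _
                exact hw0 n
          _ ≤ C1 * m * (L / Real.log H) ^ κ * H := hB H hH2 hHX hDH a ha j
          _ ≤ C1 * m * ((6 / δ) ^ κ * T) * H := by gcongr)
    have hG2 := hE (N + 2 * d.natAbs * H + d.natAbs) (by omega)
    have hG3 : ∑ n ∈ Gd, w n ≤ 16 * C0 * C1 * (6 / δ) ^ κ * (m * X) * (1 / Z) := by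
      have h1 : ((N + 2 * d.natAbs * H + d.natAbs : ℕ) : ℝ) ≤ 4 * X := by
        push_cast
        rw [← hD, ← hXdef]
        linarith
      have h2 : (#{n ∈ Icc 1 (N + 2 * d.natAbs * H + d.natAbs) | Sd d y ((n : ℕ) : ℤ)} : ℝ) ≤
          C0 * (4 * X) / (T * Z) := by
        refine hG2.trans ?_
        rw [hZe]
        gcongr
      refine hG1.trans ?_
      calc 4 * (C1 * m * ((6 / δ) ^ κ * T)) *
            (#{n ∈ Icc 1 (N + 2 * d.natAbs * H + d.natAbs) | Sd d y ((n : ℕ) : ℤ)} : ℝ)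
          ≤ 4 * (C1 * m * ((6 / δ) ^ κ * T)) * (C0 * (4 * X) / (T * Z)) :=
            mul_le_mul_of_nonneg_left h2 (by positivity)
        _ = 16 * C0 * C1 * (6 / δ) ^ κ * (m * X) * (1 / Z) := by
            field_simp
            ring
    -- the small elements
    have hsm : ((Icc 1 ⌊X ^ (1 - δ / 2 : ℝ)⌋₊).card : ℝ) ≤
        C2 * (6 * (κ + 1) / δ) ^ κ * (m * X) * (1 / Z) := by
      rw [Nat.card_Icc, Nat.add_sub_cancel]
      refine (Nat.floor_le (by positivity)).trans ?_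
      have hκ1 : 0 < 6 * (κ + 1) := by linarith
      have h2 : L ≤ 6 * (κ + 1) / δ * X ^ (δ / (6 * (κ + 1)) : ℝ) := by
        have := Real.log_le_rpow_div hX0.le (show 0 < δ / (6 * (κ + 1)) by positivity)
        rw [← hL] at this
        refine this.trans (le_of_eq ?_)
        field_simp
      have h2' : L ^ κ ≤ (6 * (κ + 1) / δ) ^ κ * X ^ (δ / 6 : ℝ) := by
        calc L ^ κ ≤ (6 * (κ + 1) / δ * X ^ (δ / (6 * (κ + 1)) : ℝ)) ^ κ :=
              Real.rpow_le_rpow hL0.le h2 hκ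
          _ = (6 * (κ + 1) / δ) ^ κ * X ^ (δ / (6 * (κ + 1)) * κ : ℝ) := by
              rw [Real.mul_rpow (by positivity) (by positivity), ← Real.rpow_mul hX0.le]
          _ ≤ _ := by
              apply mul_le_mul_of_nonneg_left _ (by positivity)
              apply Real.rpow_le_rpow_of_exponent_le hX1
              rw [div_mul_eq_mul_div, div_le_div_iff₀ hκ1 (by norm_num)]
              nlinarith
      have h3 : Z ≤ X ^ (δ / 12 : ℝ) := by
        have : Real.log Z ≤ Real.log (X ^ (δ / 12 : ℝ)) := by rw [Real.log_rpow hX0]; linarith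
        exact (Real.log_le_log_iff hZ0 (by positivity)).1 this
      have h4 : X ^ (1 - δ / 2 : ℝ) * (L ^ κ * Z) ≤ (6 * (κ + 1) / δ) ^ κ * X := by
        calc X ^ (1 - δ / 2 : ℝ) * (L ^ κ * Z) ≤
            X ^ (1 - δ / 2 : ℝ) * ((6 * (κ + 1) / δ) ^ κ * X ^ (δ / 6 : ℝ) * X ^ (δ / 12 : ℝ)) := by
              gcongr
          _ = (6 * (κ + 1) / δ) ^ κ * (X ^ (1 - δ / 2 : ℝ) * X ^ (δ / 6 : ℝ) * X ^ (δ / 12 : ℝ)) := by
              ring
          _ = (6 * (κ + 1) / δ) ^ κ * X ^ (1 - δ / 2 + δ / 6 + δ / 12) := by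
              rw [← Real.rpow_add hX0, ← Real.rpow_add hX0]
          _ ≤ (6 * (κ + 1) / δ) ^ κ * X ^ (1 : ℝ) := by
              apply mul_le_mul_of_nonneg_left _ (by positivity)
              exact Real.rpow_le_rpow_of_exponent_le hX1 (by linarith)
          _ = _ := by rw [Real.rpow_one]
      have hLκ : 0 < L ^ κ := Real.rpow_pos_of_pos hL0 _
      have h5 : X ^ (1 - δ / 2 : ℝ) * (L ^ κ * Z) * (C2 * m / Z) ≤
          (6 * (κ + 1) / δ) ^ κ * X * (C2 * m / Z) :=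
        mul_le_mul_of_nonneg_right h4 (by positivity)
      have h6 : X ^ (1 - δ / 2 : ℝ) * (L ^ κ * Z) * (C2 * m / Z) =
          X ^ (1 - δ / 2 : ℝ) * (C2 * L ^ κ * m) := by field_simp
      have h7 : X ^ (1 - δ / 2 : ℝ) ≤ X ^ (1 - δ / 2 : ℝ) * (C2 * L ^ κ * m) :=
        le_mul_of_one_le_right (by positivity) hT
      rw [← h6] at h7
      refine (h7.trans h5).trans (le_of_eq ?_)
      field_simp
    set Bad := ({n ∈ Icc 1 N | (H : ℝ) / 2 <
      #{h ∈ Icc 1 H | surv d k (0, d.sign * ((h : ℕ) : ℤ)) (n : ℕ)}} : Finset ℕ) with hBad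
    have hcover : ({n ∈ Icc 1 N | Sd d y ((n : ℕ) : ℤ)} : Finset ℕ) ⊆
        Icc 1 ⌊X ^ (1 - δ / 2 : ℝ)⌋₊ ∪ (Bad ∪ Gd) := by
      intro p hp
      rw [mem_filter, mem_Icc] at hp
      obtain ⟨⟨hp1, hpN⟩, hpS⟩ := hp
      rw [mem_union, mem_union]
      by_cases h1 : X ^ (1 - δ / 2 : ℝ) < (p : ℝ)
      · right
        by_cases h2 : (H : ℝ) / 2 < #{h ∈ Icc 1 H | surv d k (0, d.sign * ((h : ℕ) : ℤ)) (p : ℕ)}
        · left
          rw [hBad, mem_filter, mem_Icc]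
          exact ⟨⟨hp1, hpN⟩, h2⟩
        · right
          rw [hGd, mem_filter, mem_Icc]
          exact ⟨⟨hp1, hpN⟩, hpS, h1, h2⟩
      · left
        push Not at h1
        rw [mem_Icc]
        exact ⟨hp1, Nat.le_floor h1⟩
    have hun : ∀ A B : Finset ℕ, ∑ n ∈ A ∪ B, w n ≤ ∑ n ∈ A, w n + ∑ n ∈ B, w n := by
      intro A B
      rw [← sum_union_inter]
      have : 0 ≤ ∑ n ∈ A ∩ B, w n := sum_nonneg fun n _ => hw0 n
      linarith
    have hfin : ∑ n ∈ Icc 1 N with Sd d y ((n : ℕ) : ℤ), w n ≤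
        (Icc 1 ⌊X ^ (1 - δ / 2 : ℝ)⌋₊).card + (∑ n ∈ Bad, w n + ∑ n ∈ Gd, w n) := by
      have h1 := sum_le_sum_of_subset_of_nonneg hcover (f := w) (fun n _ _ => hw0 n)
      have h2 := hun (Icc 1 ⌊X ^ (1 - δ / 2 : ℝ)⌋₊) (Bad ∪ Gd)
      have h3 := hun Bad Gd
      have h4 : ∑ n ∈ Icc 1 ⌊X ^ (1 - δ / 2 : ℝ)⌋₊, w n ≤
          ((Icc 1 ⌊X ^ (1 - δ / 2 : ℝ)⌋₊).card : ℝ) := by
        calc ∑ n ∈ Icc 1 ⌊X ^ (1 - δ / 2 : ℝ)⌋₊, w n ≤
              ∑ n ∈ Icc 1 ⌊X ^ (1 - δ / 2 : ℝ)⌋₊, (1 : ℝ) := sum_le_sum fun n _ => (hw n).2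
          _ = _ := by rw [sum_const, nsmul_eq_mul, mul_one]
      linarith
    have hz1 : C2 * (6 * (κ + 1) / δ) ^ κ * (m * X) * (1 / Z) ≤
        C2 * (6 * (κ + 1) / δ) ^ κ * (m * X) * g :=
      mul_le_mul_of_nonneg_left hgZ (by positivity)
    have hz2 : 16 * C0 * C1 * (6 / δ) ^ κ * (m * X) * (1 / Z) ≤
        16 * C0 * C1 * (6 / δ) ^ κ * (m * X) * g :=
      mul_le_mul_of_nonneg_left hgZ (by positivity)
    have hz3 : 2 * (C1 * m * X) * (2 * Cq * g) = 4 * C1 * Cq * (m * X) * g := by ring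
    rw [hz3] at hbad
    rw [hsplit]
    linarith

end Pool.Agent.H33.PD
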