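import Pool.Agent.H33.PD.B

/-! Primes whose orbit under a `3x+d` map stays above `y`. -/

set_option autoImplicit false

namespace Pool.Agent.H33.PD

open Finset Filter Topology Pool.Agent.H499R2.CO Pool.Agent.W38.PR
open Pool.Agent.H319R2 (beta beta_lt)
open Classical

/-- primes in a block of a class modulo `D` -/
theorem prime_block {D H N : ℕ} (hD : 1 ≤ D) (hH : 2 ≤ H) (a j : ℕ) :
    ((#{n ∈ Icc 1 N | n.Prime ∧ n % D = a ∧ n / D / H = j} : ℕ) : ℝ) ≤
      20 * ((D : ℝ) / Nat.totient D) * (H / Real.log H) := by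
  have h1 := bt_unif (a := a + (j * H) * D) (q := D) (N := H) hD hH
  refine le_trans ?_ h1
  have h2 : #{n ∈ Icc 1 N | n.Prime ∧ n % D = a ∧ n / D / H = j} ≤
      ((Finset.range H).filter (fun i => (a + (j * H) * D + i * D).Prime)).card := by
    apply card_le_card_of_injOn (fun n => n / D % H)
    · intro n hn
      rw [mem_coe, mem_filter] at hn
      obtain ⟨_, hp, h3, h4⟩ := hn
      rw [mem_coe, mem_filter, mem_range]
      beta_reduce
      refine ⟨Nat.mod_lt _ (by omega), ?_⟩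
      have e1 := Nat.div_add_mod (n / D) H
      have e2 := Nat.mod_add_div n D
      rw [h3] at e2
      rw [h4] at e1
      have e3 : a + j * H * D + n / D % H * D = n := by
        calc a + j * H * D + n / D % H * D = a + D * (H * j + n / D % H) := by ring
          _ = a + D * (n / D) := by rw [e1]
          _ = n := e2
      rw [e3]
      exact hp
    · intro n hn n' hn' h
      rw [mem_coe, mem_filter] at hn hn'
      beta_reduce at h
      obtain ⟨_, _, h3, h4⟩ := hn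
      obtain ⟨_, _, h3', h4'⟩ := hn'
      have e1 : n / D = n' / D := by
        rw [← Nat.div_add_mod (n / D) H, ← Nat.div_add_mod (n' / D) H, h4, h4', h]
      rw [← Nat.mod_add_div n D, ← Nat.mod_add_div n' D, h3, h3', e1]
  exact_mod_cast h2

/-- primes in a class modulo `2 ^ k` -/
theorem prime_class {k N : ℕ} (hN : 2 ≤ N) (hk1 : 1 ≤ k)
    (hk : (2 : ℝ) ^ k ≤ (N : ℝ) ^ (1 / 2 : ℝ)) (a : ℕ) (ha : a < 2 ^ k) :
    ((#{n ∈ Icc 1 N | n.Prime ∧ n % 2 ^ k = a} : ℕ) : ℝ) ≤ 160 * (N / Real.log N) / 2 ^ k := by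
  have hX : (2 : ℝ) ≤ (N : ℝ) := by exact_mod_cast hN
  have h := prime_classes (k := k) (X := (N : ℝ)) hX hk1 hk (fun x : ℤ => x % 2 ^ k = (a : ℤ)) (by
    intro x m
    rw [Int.add_mul_emod_self_right])
  rw [Nat.floor_natCast] at h
  have e1 : #{b ∈ range (2 ^ k) | ((b : ℕ) : ℤ) % 2 ^ k = (a : ℤ)} = 1 := by
    rw [card_eq_one]
    refine ⟨a, ?_⟩
    ext b
    rw [mem_filter, mem_range, mem_singleton]
    constructor
    · rintro ⟨h1, h2⟩
      have h3 : (b : ℤ) % 2 ^ k = b := by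
        apply Int.emod_eq_of_lt (by positivity)
        exact_mod_cast h1
      rw [h3] at h2
      exact_mod_cast h2
    · rintro rfl
      refine ⟨ha, ?_⟩
      apply Int.emod_eq_of_lt (by positivity)
      exact_mod_cast ha
  have e3 : (160 * (N / Real.log N) / 2 ^ k : ℝ) = 160 * (N / Real.log N) / 2 ^ k *
      ((#{b ∈ range (2 ^ k) | ((b : ℕ) : ℤ) % 2 ^ k = (a : ℤ)} : ℕ) : ℝ) := by
    rw [e1, Nat.cast_one, mul_one]
  have e4 : #{n ∈ Icc 1 N | n.Prime ∧ n % 2 ^ k = a} =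
      #{p ∈ Icc 1 N | p.Prime ∧ ((p : ℕ) : ℤ) % 2 ^ k = (a : ℤ)} := by
    congr 1
    ext n
    simp only [mem_filter]
    have e2 : (n % 2 ^ k = a) ↔ ((n : ℤ) % 2 ^ k = (a : ℤ)) := by
      constructor
      · intro h; exact_mod_cast h
      · intro h; exact_mod_cast h
    rw [e2]
  rw [e3, e4]
  convert h

theorem primes_d {c δ : ℝ} (hc0 : 0 < c) (hc : c < 1 - beta) (hδ0 : 0 < δ) (hδ1 : δ ≤ 1) :
    ∃ C : ℝ, 0 < C ∧ ∀ d : ℤ, d % 2 = 1 → ¬ (3 : ℤ) ∣ d → ∀ (N : ℕ) (y : ℝ),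
    2 ≤ N → (d.natAbs : ℝ) ≤ y → (d.natAbs : ℝ) ≤ (N : ℝ) ^ (1 - δ) →
    (#{p ∈ Icc 1 N | p.Prime ∧ Sd d y ((p : ℕ) : ℤ)} : ℝ) ≤
      C * (((d.natAbs : ℝ) / Nat.totient d.natAbs) * (N / Real.log N)) *
        (√ (1 + Real.log (y / d.natAbs)) / (y / d.natAbs) ^ (c / 3)) := by
  obtain ⟨C, hC, h⟩ := core_d (κ := 1) (C1 := 160) (C2 := 1) hc0 hc (by norm_num) (by norm_num)
    (by norm_num) hδ0 hδ1
  refine ⟨C, hC, fun d hd hd3 N y hN hy hdN => ?_⟩
  have hdne : d ≠ 0 := by rintro rfl; simp at hd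
  have hDn : 1 ≤ d.natAbs := Int.natAbs_pos.2 hdne
  have hφ : (0 : ℝ) < Nat.totient d.natAbs := by exact_mod_cast Nat.totient_pos.2 hDn
  have hD0 : (0 : ℝ) < d.natAbs := by exact_mod_cast hDn
  have hQ1 : 1 ≤ (d.natAbs : ℝ) / Nat.totient d.natAbs := by
    rw [le_div_iff₀ hφ, one_mul]
    exact_mod_cast Nat.totient_le _
  set Q : ℝ := (d.natAbs : ℝ) / Nat.totient d.natAbs with hQ
  have hX : (2 : ℝ) ≤ (N : ℝ) := by exact_mod_cast hN
  have hL : 0 < Real.log N := Real.log_pos (by linarith)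
  have hX0 : (0 : ℝ) < N := by linarith
  have hw : ∀ (s : Finset ℕ) (P : ℕ → Prop) (i1 : DecidablePred P)
      (i2 : DecidablePred fun n => n.Prime ∧ P n),
      ∑ n ∈ s with P n, (if n.Prime then (1 : ℝ) else 0) =
      ((#{n ∈ s | n.Prime ∧ P n} : ℕ) : ℝ) := by
    intro s P i1 i2
    rw [← sum_filter, filter_filter, sum_const, nsmul_eq_mul, mul_one]
    congr 2
    ext n
    simp only [mem_filter]
    tauto
  have h1 := h d hd hd3 N y (fun n => if n.Prime then (1 : ℝ) else 0) (Q / Real.log N) hN hy hdN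
    (by
      intro n
      split_ifs <;> norm_num)
    (by positivity)
    (by
      rw [Real.rpow_one, one_mul]
      rw [mul_div_cancel₀ _ hL.ne']
      exact hQ1)
    (by
      intro k hk1 hk a ha
      refine (le_of_eq (hw _ _ _ _)).trans ((prime_class hN hk1 hk a ha).trans ?_)
      have e : 160 * (Q / Real.log N) * N / 2 ^ k = Q * (160 * (N / Real.log N) / 2 ^ k) := by
        field_simp
      rw [e]
      exact le_mul_of_one_le_left (by positivity) hQ1)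
    (by
      intro H hH _ _ a _ j
      refine (le_of_eq (hw _ _ _ _)).trans ((prime_block hDn hH a j).trans ?_)
      have hH' : (2 : ℝ) ≤ (H : ℝ) := by exact_mod_cast hH
      have hLH : 0 < Real.log H := Real.log_pos (by linarith)
      rw [Real.rpow_one]
      have e : 160 * (Q / Real.log N) * (Real.log N / Real.log H) * H = 160 * Q * (H / Real.log H) := by
        field_simp
      rw [e]
      apply mul_le_mul_of_nonneg_right _ (by positivity)
      apply mul_le_mul_of_nonneg_right (by norm_num) (by linarith))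
  refine (le_of_eq (hw _ _ _ _).symm).trans (h1.trans (le_of_eq ?_))
  have e3 : (2 : ℝ) * 1 + 1 = 3 := by norm_num
  rw [e3]
  ring

/-- the factor with the square root -/
theorem sqrt_log_le {ε : ℝ} (hε : 0 < ε) : ∃ C : ℝ, 0 < C ∧ ∀ Y : ℝ, 1 ≤ Y →
    √ (1 + Real.log Y) ≤ C * Y ^ ε := by
  refine ⟨√ (1 + 1 / (2 * ε)), by positivity, fun Y hY => ?_⟩
  have hY0 : 0 < Y := by linarith
  have h1 : Real.log Y ≤ Y ^ (2 * ε) / (2 * ε) := Real.log_le_rpow_div hY0.le (by positivity)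
  have h2 : 1 ≤ Y ^ (2 * ε) := Real.one_le_rpow hY (by positivity)
  have h3 : 1 + Real.log Y ≤ (1 + 1 / (2 * ε)) * Y ^ (2 * ε) := by
    have : (1 + 1 / (2 * ε)) * Y ^ (2 * ε) = Y ^ (2 * ε) + Y ^ (2 * ε) / (2 * ε) := by ring
    rw [this]
    linarith
  have h4 : Y ^ (2 * ε) = (Y ^ ε) ^ 2 := by
    rw [← Real.rpow_natCast, ← Real.rpow_mul hY0.le]
    congr 1
    push_cast
    ring
  calc √ (1 + Real.log Y) ≤ √ ((1 + 1 / (2 * ε)) * Y ^ (2 * ε)) := Real.sqrt_le_sqrt h3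
    _ = √ (1 + 1 / (2 * ε)) * Y ^ ε := by
        rw [Real.sqrt_mul (by positivity), h4, Real.sqrt_sq (by positivity)]

theorem primes_d' {c δ : ℝ} (hc0 : 0 < c) (hc : c < (1 - beta) / 3) (hδ0 : 0 < δ) (hδ1 : δ ≤ 1) :
    ∃ C : ℝ, 0 < C ∧ ∀ d : ℤ, d % 2 = 1 → ¬ (3 : ℤ) ∣ d → ∀ (N : ℕ) (y : ℝ),
    2 ≤ N → 0 < y → (d.natAbs : ℝ) ≤ (N : ℝ) ^ (1 - δ) →
    (#{p ∈ Icc 1 N | p.Prime ∧ Sd d y ((p : ℕ) : ℤ)} : ℝ) ≤
      C * ((d.natAbs : ℝ) / Nat.totient d.natAbs) * Nat.primeCounting N *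
        ((d.natAbs : ℝ) / y) ^ c := by
  obtain ⟨c', hc1, hc2⟩ := exists_between hc
  have hc'0 : 0 < c' := hc0.trans hc1
  obtain ⟨C, hC, h⟩ := primes_d (c := 3 * c') (by linarith) (by linarith) hδ0 hδ1
  obtain ⟨C', hC', hs⟩ := sqrt_log_le (ε := c' - c) (by linarith)
  obtain ⟨c0, hc00, hcheb⟩ := cheb
  refine ⟨C * C' / c0 + 1, by positivity, fun d hd hd3 N y hN hy hdN => ?_⟩
  have hdne : d ≠ 0 := by rintro rfl; simp at hd
  have hDn : 1 ≤ d.natAbs := Int.natAbs_pos.2 hdne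
  have hφ : (0 : ℝ) < Nat.totient d.natAbs := by exact_mod_cast Nat.totient_pos.2 hDn
  have hD0 : (0 : ℝ) < d.natAbs := by exact_mod_cast hDn
  have hQ1 : 1 ≤ (d.natAbs : ℝ) / Nat.totient d.natAbs := by
    rw [le_div_iff₀ hφ, one_mul]
    exact_mod_cast Nat.totient_le _
  set Q : ℝ := (d.natAbs : ℝ) / Nat.totient d.natAbs with hQ
  have hX : (2 : ℝ) ≤ (N : ℝ) := by exact_mod_cast hN
  have hL : 0 < Real.log N := Real.log_pos (by linarith)
  have hX0 : (0 : ℝ) < N := by linarith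
  have hπ := hcheb N hX
  rw [Nat.floor_natCast] at hπ
  have hπ0 : (0 : ℝ) ≤ Nat.primeCounting N := Nat.cast_nonneg _
  have htriv : (#{p ∈ Icc 1 N | p.Prime ∧ Sd d y ((p : ℕ) : ℤ)} : ℝ) ≤ Nat.primeCounting N := by
    rw [Nat.primeCounting, Nat.primeCounting', Nat.count_eq_card_filter_range]
    have : ({p ∈ Icc 1 N | p.Prime ∧ Sd d y ((p : ℕ) : ℤ)} : Finset ℕ) ⊆
        {x ∈ range (N + 1) | x.Prime} := by
      intro p hp
      rw [mem_filter, mem_Icc] at hp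
      rw [mem_filter, mem_range]
      exact ⟨by omega, hp.2.1⟩
    exact_mod_cast card_le_card this
  by_cases hyD : (d.natAbs : ℝ) ≤ y
  · set Y : ℝ := y / d.natAbs with hY
    have hY1 : 1 ≤ Y := by rw [hY, one_le_div hD0]; exact hyD
    have hY0 : 0 < Y := by linarith
    have hinv : (d.natAbs : ℝ) / y = Y⁻¹ := by rw [hY, inv_div]
    have h1 := h d hd hd3 N y hN hyD hdN
    rw [← hQ, ← hY, show 3 * c' / 3 = c' by ring] at h1
    have h2 := hs Y hY1
    have hYc' : 0 < Y ^ c' := Real.rpow_pos_of_pos hY0 _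
    have hYc : 0 < Y ^ c := Real.rpow_pos_of_pos hY0 _
    have h3 : √ (1 + Real.log Y) / Y ^ c' ≤ C' * (Y⁻¹) ^ c := by
      rw [div_le_iff₀ hYc', Real.inv_rpow hY0.le]
      refine h2.trans (le_of_eq ?_)
      rw [Real.rpow_sub hY0]
      field_simp
    have h4 : (N : ℝ) / Real.log N ≤ Nat.primeCounting N / c0 := by
      rw [le_div_iff₀ hc00]
      linarith
    rw [hinv]
    have hYi : 0 ≤ (Y⁻¹) ^ c := Real.rpow_nonneg (inv_nonneg.2 hY0.le) _
    calc (#{p ∈ Icc 1 N | p.Prime ∧ Sd d y ((p : ℕ) : ℤ)} : ℝ)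
        ≤ C * (Q * (N / Real.log N)) * (√ (1 + Real.log Y) / Y ^ c') := h1
      _ ≤ C * (Q * (Nat.primeCounting N / c0)) * (C' * (Y⁻¹) ^ c) := by gcongr
      _ = C * C' / c0 * Q * Nat.primeCounting N * (Y⁻¹) ^ c := by field_simp
      _ ≤ (C * C' / c0 + 1) * Q * Nat.primeCounting N * (Y⁻¹) ^ c := by
          gcongr
          linarith
  · push Not at hyD
    refine htriv.trans ?_
    have h1 : 1 ≤ ((d.natAbs : ℝ) / y) ^ c := by
      apply Real.one_le_rpow _ hc0.le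
      rw [one_le_div hy]
      exact hyD.le
    have h2 : 1 ≤ (C * C' / c0 + 1) := by
      have : 0 ≤ C * C' / c0 := by positivity
      linarith
    calc (Nat.primeCounting N : ℝ) = 1 * 1 * Nat.primeCounting N * 1 := by ring
      _ ≤ (C * C' / c0 + 1) * Q * Nat.primeCounting N * ((d.natAbs : ℝ) / y) ^ c := by
          gcongr

end Pool.Agent.H33.PD
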