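import Pool.Agent.H33.PD.C

/-! Transfer of properties of almost all integers to almost all primes. -/

set_option autoImplicit false

namespace Pool.Agent.H33.PD

open Finset Filter Topology Pool.Agent.H499R2.CO Pool.Agent.W38.PR
open Classical

/-- the failure probability can be made small -/
theorem theta_small {η : ℝ} (hη : 0 < η) : ∃ θ : ℝ, 0 < θ ∧ θ ≤ 1 ∧
    √ (θ * (1 + Real.log (1 / θ))) ≤ η := by
  set θ : ℝ := min 1 ((η ^ 2 / 5) ^ 2) with hθ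
  have hθ0 : 0 < θ := by positivity
  have hθ1 : θ ≤ 1 := min_le_left _ _
  refine ⟨θ, hθ0, hθ1, ?_⟩
  rw [Real.sqrt_le_left hη.le]
  have h1 : Real.log (1 / θ) ≤ 4 * (1 / √ θ) := by
    have h2 := Real.log_le_rpow_div (show 0 ≤ 1 / θ by positivity) (show (0 : ℝ) < 1 / 2 by norm_num)
    have h3 : (1 / θ) ^ (1 / 2 : ℝ) = 1 / √ θ := by
      rw [← Real.sqrt_eq_rpow, Real.sqrt_div zero_le_one, Real.sqrt_one]
    rw [h3] at h2
    have h4 : 0 < 1 / √ θ := by positivity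
    linarith
  have hs0 : 0 < √ θ := Real.sqrt_pos.2 hθ0
  have hss : √ θ * √ θ = θ := Real.mul_self_sqrt hθ0.le
  have hs1 : √ θ ≤ 1 := Real.sqrt_le_one.2 hθ1
  have h5 : θ ≤ √ θ := by
    calc θ = √ θ * √ θ := hss.symm
      _ ≤ √ θ * 1 := mul_le_mul_of_nonneg_left hs1 hs0.le
      _ = √ θ := mul_one _
  have h6 : √ θ ≤ η ^ 2 / 5 := by
    rw [Real.sqrt_le_left (by positivity)]
    exact min_le_right _ _
  have h7 : θ * (1 + Real.log (1 / θ)) ≤ 5 * √ θ := by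
    have h8 : θ * Real.log (1 / θ) ≤ θ * (4 * (1 / √ θ)) := mul_le_mul_of_nonneg_left h1 hθ0.le
    have h9 : θ * (4 * (1 / √ θ)) = 4 * √ θ := by
      rw [mul_one_div, mul_div_assoc', div_eq_iff hs0.ne']
      calc θ * 4 = 4 * (√ θ * √ θ) := by rw [hss]; ring
        _ = 4 * √ θ * √ θ := by ring
    rw [mul_add, mul_one]
    linarith
  linarith

theorem prime_transfer {ε c₀ : ℝ} (hε : 0 < ε) (hc₀ : 0 < c₀) : ∃ C : ℝ, 0 < C ∧ ∃ N₀ : ℕ,
    ∀ N : ℕ, N₀ ≤ N → ∀ d : ℤ, d % 2 = 1 → (d.natAbs : ℝ) ≤ (N : ℝ) ^ (1 / 4 : ℝ) →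
    ∀ (E : ℕ → Prop) (G : Finset ℕ), (∀ p ∈ G, p.Prime ∧ p ≤ N) →
    (∀ p ∈ G, ∀ h : ℕ, 1 ≤ h → ((d.natAbs * h : ℕ) : ℝ) ≤ (N : ℝ) ^ (3 / 4 : ℝ) →
      (∃ t : ℕ, (t : ℝ) ≤ c₀ * Real.log N ∧
        (Tz d)^[t] (p : ℤ) = (Tz d)^[t] ((p + d.natAbs * h : ℕ) : ℤ)) → E (p + d.natAbs * h)) →
    (#G : ℝ) ≤ ε * (N / Real.log N) + C * ((d.natAbs : ℝ) / Nat.totient d.natAbs) *
      (#{n ∈ Icc 1 (4 * N) | E n} / Real.log N) := by
  obtain ⟨Cq, hCq, hq⟩ := q_theta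
  obtain ⟨θ, hθ0, hθ1, hθs⟩ := theta_small (show 0 < ε / (320 * Cq) by positivity)
  obtain ⟨c₁, hc₁0, hc₁1, hc₁c⟩ : ∃ c₁ : ℝ, 0 < c₁ ∧ c₁ ≤ 1 / 2 ∧ c₁ ≤ c₀ :=
    ⟨min (1 / 2) c₀, lt_min (by norm_num) hc₀, min_le_left _ _, min_le_right _ _⟩
  have hl2 := Real.log_two_gt_d9
  have hl2' := Real.log_two_lt_d9
  refine ⟨80 / (0.3 * (θ * c₁)), by positivity, ?_⟩
  have htend : Tendsto (fun N : ℕ => θ * c₁ * Real.log N) atTop atTop :=
    (Real.tendsto_log_atTop.comp tendsto_natCast_atTop_atTop).const_mul_atTop (by positivity)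
  obtain ⟨N₀, hN₀⟩ := eventually_atTop.1 ((htend.eventually_ge_atTop (2 * (Cq + 20))).and
    (eventually_ge_atTop 2))
  refine ⟨N₀, fun N hN d hd hdN E G hG hGE => ?_⟩
  obtain ⟨hbig, hN2⟩ := hN₀ N hN
  have hdne : d ≠ 0 := by rintro rfl; simp at hd
  have hDn : 1 ≤ d.natAbs := Int.natAbs_pos.2 hdne
  have hφ : (0 : ℝ) < Nat.totient d.natAbs := by exact_mod_cast Nat.totient_pos.2 hDn
  have hD0 : (0 : ℝ) < d.natAbs := by exact_mod_cast hDn
  set X : ℝ := (N : ℝ) with hXdef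
  have hX : 2 ≤ X := by rw [hXdef]; exact_mod_cast hN2
  have hX0 : 0 < X := by linarith
  have hX1 : 1 ≤ X := by linarith
  set L := Real.log X with hL
  have hL0 : 0 < L := Real.log_pos (by linarith)
  -- parameters
  have hcL : 2 * (Cq + 20) ≤ c₁ * L := by
    have : θ * c₁ * L ≤ 1 * (c₁ * L) := by
      rw [mul_assoc]
      exact mul_le_mul_of_nonneg_right hθ1 (by positivity)
    linarith
  set k : ℕ := ⌊c₁ * L⌋₊ with hk
  have hk1 : (k : ℝ) ≤ c₁ * L := Nat.floor_le (by positivity)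
  have hk2 : c₁ * L < k + 1 := Nat.lt_floor_add_one _
  have hk3 : c₁ * L / 2 ≤ k := by linarith
  have hkpos : 1 ≤ k := by
    have : (1 : ℝ) ≤ k := by linarith
    exact_mod_cast this
  have hk5 : (2 : ℝ) ^ k ≤ X ^ (1 / 2 : ℝ) := by
    have h1 : Real.log ((2 : ℝ) ^ k) ≤ Real.log (X ^ (1 / 2 : ℝ)) := by
      rw [Real.log_pow, Real.log_rpow hX0]
      have h2 : (k : ℝ) * Real.log 2 ≤ k * 1 := mul_le_mul_of_nonneg_left (by linarith) (by positivity)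
      have h3 : c₁ * L ≤ 1 / 2 * L := mul_le_mul_of_nonneg_right hc₁1 hL0.le
      linarith
    exact (Real.log_le_log_iff (by positivity) (by positivity)).1 h1
  have hθk : Cq + 20 ≤ θ * k := by
    have := mul_le_mul_of_nonneg_left hk3 hθ0.le
    linarith
  have hθk' : θ * c₁ * L / 2 ≤ θ * k := by
    have := mul_le_mul_of_nonneg_left hk3 hθ0.le
    linarith
  have hθk10 : 10 ≤ θ * k := by linarith
  set H : ℕ := ⌊(2 : ℝ) ^ (θ * k)⌋₊ with hH
  obtain ⟨hH2, hHle, hHlog⟩ := log_half hθk10 hH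
  have hHX : (H : ℝ) ≤ X ^ (1 / 2 : ℝ) := by
    refine hHle.trans (le_trans ?_ hk5)
    rw [← Real.rpow_natCast]
    apply Real.rpow_le_rpow_of_exponent_le (by norm_num)
    exact mul_le_of_le_one_left (by positivity) hθ1
  have hDH34 : (d.natAbs : ℝ) * H ≤ X ^ (3 / 4 : ℝ) := by
    calc (d.natAbs : ℝ) * H ≤ X ^ (1 / 4 : ℝ) * X ^ (1 / 2 : ℝ) := by gcongr
      _ = X ^ (3 / 4 : ℝ) := by rw [← Real.rpow_add hX0]; norm_num
  have hDH : (d.natAbs : ℝ) * H ≤ X := by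
    calc (d.natAbs : ℝ) * H ≤ X ^ (3 / 4 : ℝ) := hDH34
      _ ≤ X ^ (1 : ℝ) := Real.rpow_le_rpow_of_exponent_le hX1 (by norm_num)
      _ = X := Real.rpow_one X
  have hDHN : d.natAbs * H ≤ N := by
    have h : ((d.natAbs * H : ℕ) : ℝ) ≤ ((N : ℕ) : ℝ) := by
      rw [Nat.cast_mul, ← hXdef]; exact hDH
    exact Nat.cast_le.1 h
  have hDN : d.natAbs ≤ N := le_trans (Nat.le_mul_of_pos_right _ (by omega)) hDHN
  have hlogH : 0.3 * (θ * c₁) * L ≤ Real.log H := by linarith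
  have hlogH0 : 0 < Real.log H := lt_of_lt_of_le (by positivity) hlogH
  -- the failure probability
  set q₀ : ℝ := Cq * (ε / (320 * Cq)) with hq₀
  have hq₀' : q₀ = ε / 320 := by rw [hq₀]; field_simp
  have hQ : ∀ h ∈ Icc 1 H, q step (0, 0) k (0, d.sign * ((h : ℕ) : ℤ)) ≤ q₀ := by
    intro h hh
    rw [mem_Icc] at hh
    have h1 : |((d.sign * ((h : ℕ) : ℤ) : ℤ) : ℝ)| ≤ (2 : ℝ) ^ (θ * k) := by
      have h0 : |(d.sign * ((h : ℕ) : ℤ) : ℤ)| = h := by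
        rw [abs_mul, Int.abs_sign_of_ne_zero hdne, one_mul, Nat.abs_cast]
      have h0' : |((d.sign * ((h : ℕ) : ℤ) : ℤ) : ℝ)| = h := by
        rw [← Int.cast_abs, h0]; simp
      rw [h0']
      refine le_trans ?_ hHle
      exact_mod_cast hh.2
    have h2 := hq θ hθ0 hθ1 k (by linarith) 0 (d.sign * ((h : ℕ) : ℤ)) (by
      have : 0 ≤ θ * (k : ℝ) := by positivity
      simpa using this) h1
    exact h2.trans (mul_le_mul_of_nonneg_left hθs (by linarith))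
  -- weights
  set w : ℕ → ℝ := fun n => if n.Prime then (1 : ℝ) else 0 with hw
  have hw0 : ∀ n, 0 ≤ w n := by intro n; rw [hw]; beta_reduce; split_ifs <;> norm_num
  have hwc : ∀ (s : Finset ℕ) (P : ℕ → Prop) (i1 : DecidablePred P)
      (i2 : DecidablePred fun n => n.Prime ∧ P n),
      ∑ n ∈ s with P n, w n = ((#{n ∈ s | n.Prime ∧ P n} : ℕ) : ℝ) := by
    intro s P i1 i2
    rw [hw, ← sum_filter, filter_filter, sum_const, nsmul_eq_mul, mul_one]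
    congr 2
    ext n
    simp only [mem_filter]
    tauto
  have hbad := w_bad' hd (N := N) w hw0 (M := 160 * (X / L)) (by positivity)
    (fun a ha => (le_of_eq (hwc _ _ _ _)).trans (prime_class hN2 hkpos hk5 a ha))
    (by omega : 1 ≤ H) (fun h : ℕ => d.sign * ((h : ℕ) : ℤ)) hQ
  set G1 := G.filter (fun p => (H : ℝ) / 2 <
    #{h ∈ Icc 1 H | surv d k (0, d.sign * ((h : ℕ) : ℤ)) (p : ℕ)}) with hG1
  set G2 := G.filter (fun p => ¬ (H : ℝ) / 2 <
    #{h ∈ Icc 1 H | surv d k (0, d.sign * ((h : ℕ) : ℤ)) (p : ℕ)}) with hG2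
  have hcardG : (#G : ℝ) = #G1 + #G2 := by
    rw [hG1, hG2]
    exact_mod_cast (card_filter_add_card_filter_not (s := G) _).symm
  have hG1le : (#G1 : ℝ) ≤ ε * (X / L) := by
    have h1 : (#G1 : ℝ) = ∑ n ∈ G1, w n := by
      rw [← nsmul_one, ← sum_const]
      apply sum_congr rfl
      intro n hn
      rw [hG1, mem_filter] at hn
      rw [hw]
      beta_reduce
      rw [if_pos (hG n hn.1).1]
    rw [h1]
    have h2 : ∑ n ∈ G1, w n ≤ ∑ n ∈ Icc 1 N with (H : ℝ) / 2 <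
        #{h ∈ Icc 1 H | surv d k (0, d.sign * ((h : ℕ) : ℤ)) (n : ℕ)}, w n := by
      apply sum_le_sum_of_subset_of_nonneg
      · intro n hn
        rw [hG1, mem_filter] at hn
        rw [mem_filter, mem_Icc]
        exact ⟨⟨(hG n hn.1).1.one_lt.le, (hG n hn.1).2⟩, hn.2⟩
      · intro n _ _; exact hw0 n
    refine h2.trans (hbad.trans (le_of_eq ?_))
    rw [hq₀']
    ring
  -- good primes
  have hGood : ∀ p ∈ G2, p ≤ N ∧ (H : ℝ) / 2 ≤ #{h ∈ Icc 1 H | E (p + d.natAbs * h)} := by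
    intro p hp
    rw [hG2, mem_filter] at hp
    obtain ⟨hpG, hpb⟩ := hp
    obtain ⟨hpp, hpN⟩ := hG p hpG
    refine ⟨hpN, ?_⟩
    push Not at hpb
    have h2 : ({h ∈ Icc 1 H | ¬ surv d k (0, d.sign * ((h : ℕ) : ℤ)) (p : ℕ)} : Finset ℕ) ⊆
        ({h ∈ Icc 1 H | E (p + d.natAbs * h)} : Finset ℕ) := by
      intro h hh
      rw [mem_filter, mem_Icc] at hh ⊢
      refine ⟨hh.1, hGE p hpG h hh.1.1 ?_ ?_⟩
      · have h5 : d.natAbs * h ≤ d.natAbs * H := Nat.mul_le_mul_left _ hh.1.2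
        calc ((d.natAbs * h : ℕ) : ℝ) ≤ ((d.natAbs * H : ℕ) : ℝ) := by exact_mod_cast h5
          _ = (d.natAbs : ℝ) * H := by rw [Nat.cast_mul]
          _ ≤ X ^ (3 / 4 : ℝ) := hDH34
      · obtain ⟨t, htk, ht⟩ := coal (d := d) hd k 0 (d.sign * (h : ℤ)) (p : ℤ) hh.2
        have e : (3 : ℤ) ^ 0 * (p : ℤ) + d * (d.sign * (h : ℤ)) = ((p + d.natAbs * h : ℕ) : ℤ) := by
          rw [Nat.cast_add, Nat.cast_mul, ← mul_assoc, Int.mul_sign_self, pow_zero, one_mul]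
        rw [e] at ht
        refine ⟨t, ?_, ht⟩
        have h3 : (t : ℝ) ≤ k := by exact_mod_cast htk
        have h4 : c₁ * L ≤ c₀ * L := mul_le_mul_of_nonneg_right hc₁c hL0.le
        linarith
    have h3 := card_le_card h2
    have h4 := card_filter_add_card_filter_not (s := Icc 1 H)
      (fun h : ℕ => surv d k (0, d.sign * ((h : ℕ) : ℤ)) (p : ℕ))
    rw [Nat.card_Icc, Nat.add_sub_cancel] at h4
    have h5 : (#{h ∈ Icc 1 H | surv d k (0, d.sign * ((h : ℕ) : ℤ)) (p : ℕ)} : ℝ) +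
        #{h ∈ Icc 1 H | ¬ surv d k (0, d.sign * ((h : ℕ) : ℤ)) (p : ℕ)} = H := by exact_mod_cast h4
    have h6 : (#{h ∈ Icc 1 H | ¬ surv d k (0, d.sign * ((h : ℕ) : ℤ)) (p : ℕ)} : ℝ) ≤
        #{h ∈ Icc 1 H | E (p + d.natAbs * h)} := by exact_mod_cast h3
    linarith
  set Q : ℝ := (d.natAbs : ℝ) / Nat.totient d.natAbs with hQdef
  have hQ0 : 0 < Q := by positivity
  have hblock := w_block' (N := N) hDn hH2 (fun _ => (1 : ℝ)) (M := 20 * Q / Real.log H)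
    (by positivity) G2 E hGood (by
      intro a ha j
      have h1 := prime_block (D := d.natAbs) (H := H) (N := N) hDn hH2 a j
      refine le_trans ?_ (h1.trans (le_of_eq ?_))
      · rw [sum_const, nsmul_eq_mul, mul_one]
        have : (G2.filter (fun n => n % d.natAbs = a ∧ n / d.natAbs / H = j)) ⊆
            ({n ∈ Icc 1 N | n.Prime ∧ n % d.natAbs = a ∧ n / d.natAbs / H = j} : Finset ℕ) := by
          intro n hn
          rw [mem_filter, hG2, mem_filter] at hn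
          rw [mem_filter, mem_Icc]
          obtain ⟨hpp, hpN⟩ := hG n hn.1.1
          exact ⟨⟨hpp.one_lt.le, hpN⟩, hpp, hn.2⟩
        exact_mod_cast card_le_card this
      · rw [← hQdef]; ring)
  have hG2le : (#G2 : ℝ) ≤ 80 / (0.3 * (θ * c₁)) * Q * (#{n ∈ Icc 1 (4 * N) | E n} / L) := by
    have h1 : (#G2 : ℝ) ≤ 4 * (20 * Q / Real.log H) *
        #{n ∈ Icc 1 (N + 2 * d.natAbs * H + d.natAbs) | E n} := by
      refine le_trans (le_of_eq ?_) hblock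
      rw [sum_const, nsmul_eq_mul, mul_one]
    have h2 : (#{n ∈ Icc 1 (N + 2 * d.natAbs * H + d.natAbs) | E n} : ℝ) ≤
        #{n ∈ Icc 1 (4 * N) | E n} := by
      have : N + 2 * d.natAbs * H + d.natAbs ≤ 4 * N := by
        have : 2 * d.natAbs * H = 2 * (d.natAbs * H) := by ring
        omega
      exact_mod_cast card_le_card (filter_subset_filter _ (Icc_subset_Icc_right this))
    calc (#G2 : ℝ) ≤ 4 * (20 * Q / Real.log H) *
        #{n ∈ Icc 1 (N + 2 * d.natAbs * H + d.natAbs) | E n} := h1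
      _ ≤ 4 * (20 * Q / (0.3 * (θ * c₁) * L)) * #{n ∈ Icc 1 (4 * N) | E n} := by gcongr
      _ = 80 / (0.3 * (θ * c₁)) * Q * (#{n ∈ Icc 1 (4 * N) | E n} / L) := by
          field_simp
          ring
  rw [hcardG]
  linarith

end Pool.Agent.H33.PD
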