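import Pool.Agent.H33.PD.D
import Pool.Agent.H33.G.R_seed8.H499R2.NDCol
import Pool.Agent.H33.G.R_seed8.H499R2.CO.R6
import Pool.Agent.H33.G.R_seed8.H499R2.LT.R6

/-! Properties of the trajectories of almost all primes under the `3x+1` map. -/

set_option autoImplicit false

namespace Pool.Agent.H33.PD

open Finset Filter Topology Pool.Agent.H499R2.CO Pool.Agent.W38.PR
open Pool.Agent.H499R2.ND (Dn Tn Bas cnt cnt_eq zd_iff)
open Pool.Agent.H319R2.Lln (mu)
open Classical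

/-- almost no prime has the property `P` -/
def NoPrimes (P : ℕ → Prop) : Prop := ∀ ε : ℝ, 0 < ε → ∀ᶠ N : ℕ in atTop,
  (#{p ∈ Icc 1 N | p.Prime ∧ P p} : ℝ) ≤ ε * Nat.primeCounting N

theorem NoPrimes.mono {P Q : ℕ → Prop} (hQ : NoPrimes Q) (h : ∀ p : ℕ, p.Prime → P p → Q p) :
    NoPrimes P := by
  intro ε hε
  filter_upwards [hQ ε hε] with N hN
  refine le_trans ?_ hN
  have : ({p ∈ Icc 1 N | p.Prime ∧ P p} : Finset ℕ) ⊆ {p ∈ Icc 1 N | p.Prime ∧ Q p} := by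
    intro p hp
    rw [mem_filter] at hp ⊢
    exact ⟨hp.1, hp.2.1, h p hp.2.1 hp.2.2⟩
  exact_mod_cast card_le_card this

theorem NoPrimes.or {P Q : ℕ → Prop} (hP : NoPrimes P) (hQ : NoPrimes Q) :
    NoPrimes (fun p => P p ∨ Q p) := by
  intro ε hε
  filter_upwards [hP (ε / 2) (by positivity), hQ (ε / 2) (by positivity)] with N h1 h2
  have h3 : ({p ∈ Icc 1 N | p.Prime ∧ (P p ∨ Q p)} : Finset ℕ) ⊆
      {p ∈ Icc 1 N | p.Prime ∧ P p} ∪ {p ∈ Icc 1 N | p.Prime ∧ Q p} := by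
    intro p hp
    rw [mem_union, mem_filter, mem_filter]
    rw [mem_filter] at hp
    tauto
  have h4 : (#{p ∈ Icc 1 N | p.Prime ∧ (P p ∨ Q p)} : ℝ) ≤
      #{p ∈ Icc 1 N | p.Prime ∧ P p} + #{p ∈ Icc 1 N | p.Prime ∧ Q p} := by
    exact_mod_cast (card_le_card h3).trans (card_union_le _ _)
  have h5 := h4.trans (add_le_add h1 h2)
  have h6 : ε / 2 * (Nat.primeCounting N : ℝ) + ε / 2 * Nat.primeCounting N =
      ε * Nat.primeCounting N := by ring
  rw [h6] at h5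
  refine le_trans (le_of_eq ?_) h5
  congr!

/-- the small primes do not matter -/
theorem small_le : ∀ ε : ℝ, 0 < ε → ∀ᶠ N : ℕ in atTop, (N : ℝ) ^ (3 / 4 : ℝ) ≤ ε * (N / Real.log N) := by
  intro ε hε
  have h1 := (isLittleO_log_rpow_atTop (show (0 : ℝ) < 1 / 4 by norm_num)).bound hε
  have h2 := (tendsto_natCast_atTop_atTop (R := ℝ)).eventually h1
  filter_upwards [h2, eventually_ge_atTop 2] with N h3 h4
  have hN : (2 : ℝ) ≤ N := by exact_mod_cast h4
  have hN0 : (0 : ℝ) < N := by linarith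
  have hL : 0 < Real.log N := Real.log_pos (by linarith)
  rw [Real.norm_eq_abs, Real.norm_eq_abs, abs_of_pos hL, abs_of_nonneg (by positivity)] at h3
  rw [mul_div_assoc', le_div_iff₀ hL]
  calc (N : ℝ) ^ (3 / 4 : ℝ) * Real.log N ≤ (N : ℝ) ^ (3 / 4 : ℝ) * (ε * (N : ℝ) ^ (1 / 4 : ℝ)) :=
        mul_le_mul_of_nonneg_left h3 (by positivity)
    _ = ε * ((N : ℝ) ^ (3 / 4 : ℝ) * (N : ℝ) ^ (1 / 4 : ℝ)) := by ring
    _ = ε * N := by rw [← Real.rpow_add hN0]; norm_num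

/-- from few integers to few primes -/
theorem fewPrimes_of {ε c₀ : ℝ} (hε : 0 < ε) (hc₀ : 0 < c₀) : ∃ η : ℝ, 0 < η ∧ ∀ P E : ℕ → Prop,
    (∀ᶠ N : ℕ in atTop, cnt E N ≤ η * N) →
    (∀ᶠ N : ℕ in atTop, ∀ p : ℕ, p.Prime → p ≤ N → (N : ℝ) ^ (3 / 4 : ℝ) < p → P p →
      ∀ h : ℕ, 1 ≤ h → (h : ℝ) ≤ (N : ℝ) ^ (3 / 4 : ℝ) → (∃ t : ℕ, (t : ℝ) ≤ c₀ * Real.log N ∧
        Tn^[t] p = Tn^[t] (p + h)) → E (p + h)) →
    ∀ᶠ N : ℕ in atTop, (#{p ∈ Icc 1 N | p.Prime ∧ P p} : ℝ) ≤ ε * Nat.primeCounting N := by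
  obtain ⟨c, hc, hcheb⟩ := cheb
  obtain ⟨C, hC, N₀, h⟩ := prime_transfer (ε := ε * c / 4) (c₀ := c₀) (by positivity) hc₀
  refine ⟨ε * c / (16 * C), by positivity, fun P E hE' hPE => ?_⟩
  have h4 : Tendsto (fun N : ℕ => 4 * N) atTop atTop := tendsto_id.const_mul_atTop' (by norm_num)
  filter_upwards [h4.eventually hE', hPE, small_le (ε * c / 4) (by positivity),
    eventually_ge_atTop (max N₀ 2)] with N h1 h2 h3 hN
  have hN2 : 2 ≤ N := (le_max_right _ _).trans hN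
  have hX : (2 : ℝ) ≤ N := by exact_mod_cast hN2
  have hL : 0 < Real.log N := Real.log_pos (by linarith)
  have hπ := hcheb N hX
  rw [Nat.floor_natCast] at hπ
  set G := ({p ∈ Icc 1 N | p.Prime ∧ P p ∧ (N : ℝ) ^ (3 / 4 : ℝ) < (p : ℝ)} : Finset ℕ) with hG
  have hcov : ({p ∈ Icc 1 N | p.Prime ∧ P p} : Finset ℕ) ⊆ Icc 1 ⌊(N : ℝ) ^ (3 / 4 : ℝ)⌋₊ ∪ G := by
    intro p hp
    rw [mem_filter, mem_Icc] at hp
    rw [mem_union, mem_Icc, hG, mem_filter, mem_Icc]
    by_cases h5 : (N : ℝ) ^ (3 / 4 : ℝ) < (p : ℝ)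
    · right; exact ⟨hp.1, hp.2.1, hp.2.2, h5⟩
    · left
      push Not at h5
      exact ⟨hp.1.1, Nat.le_floor h5⟩
  have h5 := h N ((le_max_left _ _).trans hN) 1 (by norm_num) (by
    simp only [Int.natAbs_one, Nat.cast_one]
    exact Real.one_le_rpow (by linarith) (by norm_num)) E G (by
    intro p hp
    rw [hG, mem_filter, mem_Icc] at hp
    exact ⟨hp.2.1, hp.1.2⟩) (by
    intro p hp k hk hpk ht
    rw [hG, mem_filter, mem_Icc] at hp
    simp only [Int.natAbs_one, one_mul] at hpk ht ⊢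
    obtain ⟨t, ht1, ht2⟩ := ht
    rw [Tn_iter_cast, Tn_iter_cast] at ht2
    exact h2 p hp.2.1 hp.1.2 hp.2.2.2 hp.2.2.1 k hk hpk ⟨t, ht1, by exact_mod_cast ht2⟩)
  have h6 : ((Int.natAbs 1 : ℕ) : ℝ) / Nat.totient (Int.natAbs 1) = 1 := by simp
  rw [h6, mul_one] at h5
  rw [cnt_eq] at h1
  have h7 : (#{p ∈ Icc 1 N | p.Prime ∧ P p} : ℝ) ≤ (N : ℝ) ^ (3 / 4 : ℝ) + #G := by
    have h8 := (card_le_card hcov).trans (card_union_le _ _)
    rw [Nat.card_Icc, Nat.add_sub_cancel] at h8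
    have h9 : (#{p ∈ Icc 1 N | p.Prime ∧ P p} : ℝ) ≤ ⌊(N : ℝ) ^ (3 / 4 : ℝ)⌋₊ + #G := by
      exact_mod_cast h8
    have := Nat.floor_le (show 0 ≤ (N : ℝ) ^ (3 / 4 : ℝ) by positivity)
    linarith
  have h8 : C * ((#{n ∈ Icc 1 (4 * N) | E n} : ℝ) / Real.log N) ≤ ε * c / 4 * (N / Real.log N) := by
    have h9 : (#{n ∈ Icc 1 (4 * N) | E n} : ℝ) ≤ ε * c / (16 * C) * ((4 * N : ℕ) : ℝ) := by
      convert h1
    push_cast at h9
    calc C * ((#{n ∈ Icc 1 (4 * N) | E n} : ℝ) / Real.log N) ≤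
          C * (ε * c / (16 * C) * (4 * N) / Real.log N) := by gcongr
      _ = ε * c / 4 * (N / Real.log N) := by field_simp; ring
  have h9 : 3 * (ε * c / 4 * ((N : ℝ) / Real.log N)) ≤ ε * Nat.primeCounting N := by
    have h10 : ε * (c * ((N : ℝ) / Real.log N)) ≤ ε * Nat.primeCounting N :=
      mul_le_mul_of_nonneg_left hπ hε.le
    have h11 : 0 ≤ ε * c * ((N : ℝ) / Real.log N) := by positivity
    linarith
  linarith

/-- from almost all integers to almost all primes -/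
theorem noPrimes_of {P E : ℕ → Prop} (hE : Dn E 0) {c₀ : ℝ} (hc₀ : 0 < c₀)
    (hPE : ∀ᶠ N : ℕ in atTop, ∀ p : ℕ, p.Prime → p ≤ N → (N : ℝ) ^ (3 / 4 : ℝ) < p → P p →
      ∀ h : ℕ, 1 ≤ h → (h : ℝ) ≤ (N : ℝ) ^ (3 / 4 : ℝ) → (∃ t : ℕ, (t : ℝ) ≤ c₀ * Real.log N ∧
        Tn^[t] p = Tn^[t] (p + h)) → E (p + h)) : NoPrimes P := by
  intro ε hε
  obtain ⟨η, hη, h⟩ := fewPrimes_of hε hc₀
  exact h P E ((zd_iff.1 hE) η hη) hPE

/-! ### the first part of the trajectory -/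

theorem Tn_two_pow_ge (k : ℕ) : ∀ n : ℕ, n ≤ 2 ^ k * Tn^[k] n := by
  induction k with
  | zero => intro n; simp
  | succ k ih =>
    intro n
    rw [Function.iterate_succ_apply]
    have h1 := ih (Tn n)
    have h2 := Pool.Agent.H499R2.ND.Tn_ge n
    rw [pow_succ]
    linarith

/-- the logarithms of the first terms -/
theorem log_first {n k : ℕ} (hn : 1 ≤ n) :
    |Real.log ((Tn^[k] n : ℕ) : ℝ) - Real.log n| ≤ k * Real.log 2 := by
  have h1 := Pool.Agent.H499R2.ND.log_step hn k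
  have h2 := Tn_two_pow_ge k n
  have hpos := Pool.Agent.H499R2.ND.Tn_iter_pos hn k
  have h3 : Real.log n ≤ Real.log (2 ^ k * ((Tn^[k] n : ℕ) : ℝ)) := by
    apply Real.log_le_log
    · exact_mod_cast hn
    · exact_mod_cast h2
  rw [Real.log_mul (by positivity) (by
    have : (0 : ℝ) < ((Tn^[k] n : ℕ) : ℝ) := by exact_mod_cast hpos
    exact this.ne'), Real.log_pow] at h3
  rw [abs_le]
  constructor <;> linarith

theorem mu_lt : mu < 0.3 := by
  unfold mu
  have h1 : Real.log (4 / 3) < 2 * 0.3 := by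
    have : Real.log (4 / 3) ≤ 4 / 3 - 1 := Real.log_le_sub_one_of_pos (by norm_num)
    linarith
  linarith

/-- comparison of the profiles of `p` and of `q = p + h` -/
theorem profile_transfer {ε : ℝ} (hε : 0 < ε) (hε1 : ε ≤ 1 / 4) : ∀ᶠ N : ℕ in atTop, ∀ p : ℕ,
    p ≤ N → (N : ℝ) ^ (3 / 4 : ℝ) < p → ∀ h : ℕ, (h : ℝ) ≤ (N : ℝ) ^ (3 / 4 : ℝ) → ∀ t : ℕ,
    (t : ℝ) ≤ ε / 4 * Real.log N → Tn^[t] p = Tn^[t] (p + h) →
    1 ≤ p ∧ 2 ^ t < p ∧ 0 < Real.log p ∧ Real.log p ≤ Real.log ((p + h : ℕ) : ℝ) ∧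
    Real.log ((p + h : ℕ) : ℝ) ≤ 4 / 3 * Real.log p ∧ (t : ℝ) ≤ 1 / 12 * Real.log p ∧
    (∀ j : ℕ, |Real.log ((Tn^[j] (p + h) : ℕ) : ℝ) - Real.log ((p + h : ℕ) : ℝ) + mu * j| ≤
        ε * Real.log ((p + h : ℕ) : ℝ) →
      |Real.log ((Tn^[j] p : ℕ) : ℝ) - Real.log p + mu * j| ≤ 2 * ε * Real.log p) := by
  have hcast : Tendsto (fun N : ℕ => Real.log (N : ℝ)) atTop atTop :=
    Real.tendsto_log_atTop.comp tendsto_natCast_atTop_atTop
  filter_upwards [hcast.eventually_ge_atTop (8 / ε), eventually_ge_atTop 2] with N h1 h2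
  intro p hpN hp h hph t ht hT
  have hN : (2 : ℝ) ≤ N := by exact_mod_cast h2
  have hN0 : (0 : ℝ) < N := by linarith
  have hL : 0 < Real.log N := Real.log_pos (by linarith)
  have hpos : (0 : ℝ) < (N : ℝ) ^ (3 / 4 : ℝ) := by positivity
  have hp0 : (0 : ℝ) < p := hpos.trans hp
  have hp1 : 1 ≤ p := by
    have : 0 < p := by exact_mod_cast hp0
    omega
  have hlogp : 3 / 4 * Real.log N ≤ Real.log p := by
    have := Real.log_le_log hpos hp.le
    rwa [Real.log_rpow hN0] at this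
  have h8 : 8 ≤ ε * Real.log N := by
    rw [div_le_iff₀ hε] at h1
    linarith
  have hlogp0 : 0 < Real.log p := by linarith
  have hl2 := Real.log_two_gt_d9
  have hl2' := Real.log_two_lt_d9
  have htp : 2 ^ t < p := by
    have h3 : ((2 : ℝ) ^ t) < p := by
      have h4 : Real.log ((2 : ℝ) ^ t) < Real.log p := by
        rw [Real.log_pow]
        have h5 : (t : ℝ) * Real.log 2 ≤ ε / 4 * Real.log N * 1 :=
          mul_le_mul ht (by linarith) (by positivity) (by positivity)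
        have h6 : ε / 4 * Real.log N ≤ 1 / 4 * Real.log N :=
          mul_le_mul_of_nonneg_right (by linarith) hL.le
        linarith
      exact (Real.log_lt_log_iff (by positivity) hp0).1 h4
    exact_mod_cast h3
  have hq : Real.log ((p + h : ℕ) : ℝ) ≤ Real.log p + Real.log 2 := by
    have h3 : ((p + h : ℕ) : ℝ) ≤ p * 2 := by
      push_cast
      linarith
    have h4 : Real.log ((p + h : ℕ) : ℝ) ≤ Real.log (p * 2) :=
      Real.log_le_log (by have : 0 < p + h := by omega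
                          exact_mod_cast this) h3
    rwa [Real.log_mul (by linarith) (by norm_num)] at h4
  have hqp : Real.log p ≤ Real.log ((p + h : ℕ) : ℝ) :=
    Real.log_le_log hp0 (by push_cast; linarith [Nat.cast_nonneg (α := ℝ) h])
  have hNp : ε * Real.log N ≤ 4 / 3 * (ε * Real.log p) := by
    have := mul_le_mul_of_nonneg_left hlogp hε.le
    linarith
  have hεp : ε * Real.log p ≤ 1 / 4 * Real.log p := mul_le_mul_of_nonneg_right hε1 hlogp0.le
  have hmu := Pool.Agent.H499R2.ND.mu_pos'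
  have hmu' := mu_lt
  refine ⟨hp1, htp, hlogp0, hqp, by linarith, by linarith, fun j hj => ?_⟩
  rcases le_or_gt t j with htj | htj
  · obtain ⟨i, rfl⟩ := Nat.exists_eq_add_of_le htj
    have e : Tn^[t + i] p = Tn^[t + i] (p + h) := by
      rw [add_comm, Function.iterate_add_apply, Function.iterate_add_apply, hT]
    rw [e]
    rw [abs_le] at hj ⊢
    have h9 : ε * Real.log ((p + h : ℕ) : ℝ) ≤ ε * (Real.log p + Real.log 2) :=
      mul_le_mul_of_nonneg_left hq hε.le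
    have h10 : ε * Real.log 2 ≤ 1 / 4 * 1 := mul_le_mul hε1 (by linarith) (by linarith) (by norm_num)
    constructor <;> linarith [hj.1, hj.2]
  · have hjt : (j : ℝ) ≤ t := by exact_mod_cast htj.le
    have h9 := log_first (k := j) hp1
    have hj0 : (0 : ℝ) ≤ j := Nat.cast_nonneg j
    have h10 : (j : ℝ) * Real.log 2 ≤ j * 0.7 := mul_le_mul_of_nonneg_left (by linarith) hj0
    have h11 : mu * (j : ℝ) ≤ 0.3 * j := mul_le_mul_of_nonneg_right hmu'.le hj0
    have h12 : 0 ≤ mu * (j : ℝ) := by positivity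
    rw [abs_le] at h9 ⊢
    constructor <;> linarith [h9.1, h9.2]

/-- a trajectory which reaches `1` within `k` steps -/
theorem le_of_reach {n k : ℕ} (h : Tn^[k] n = 1) : n ≤ 2 ^ k := by
  have := Tn_two_pow_ge k n
  rwa [h, mul_one] at this

/-- the trajectories of almost all primes which reach `1` are straight up to the first time at which
they reach `1` -/
theorem straight_to_one {ε : ℝ} (hε : 0 < ε) : NoPrimes (fun p : ℕ => (∃ k, Tn^[k] p = 1) ∧
    ¬ ∃ t : ℕ, Tn^[t] p = 1 ∧ (∀ j < t, ¬ Tn^[j] p = 1) ∧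
      ∀ j ≤ t, |Real.log ((Tn^[j] p : ℕ) : ℝ) - Real.log p + mu * j| ≤ ε * Real.log p) := by
  set ε₁ : ℝ := min (ε / 2) (1 / 4) with hε₁
  have h0 : 0 < ε₁ := lt_min (by positivity) (by norm_num)
  have h1 : ε₁ ≤ 1 / 4 := min_le_right _ _
  have h2 : 2 * ε₁ ≤ ε := by
    have : ε₁ ≤ ε / 2 := min_le_left _ _
    linarith
  refine noPrimes_of (Pool.Agent.H499R2.ND.full_zd h0 (fun n => n = 1)) (c₀ := ε₁ / 4) (by positivity) ?_
  filter_upwards [profile_transfer h0 h1] with N hN p hp hpN hpl ⟨⟨k, hk⟩, hno⟩ h hh hhN ⟨t, ht, hT⟩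
  obtain ⟨hp1, htp, hlp, hlq, _, _, hprof⟩ := hN p hpN hpl h hhN t ht hT
  have hpj : ∀ j ≤ t, ∀ m : ℕ, p ≤ m → Tn^[j] m ≠ 1 := by
    intro j hj m hm h3
    have h4 := le_of_reach h3
    have h5 : 2 ^ j ≤ 2 ^ t := Nat.pow_le_pow_right (by norm_num) hj
    omega
  have heq : ∀ j, t ≤ j → Tn^[j] p = Tn^[j] (p + h) := by
    intro j hj
    obtain ⟨i, rfl⟩ := Nat.exists_eq_add_of_le hj
    rw [add_comm, Function.iterate_add_apply, Function.iterate_add_apply, hT]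
  refine ⟨⟨k, ?_⟩, fun hex => hno ?_⟩
  · have htk : t ≤ k := by
      by_contra hlt
      exact hpj k (by omega) p le_rfl hk
    rw [← heq k htk]
    exact hk
  · obtain ⟨t₁, ht1, hmin, hpr⟩ := hex
    have htt : t ≤ t₁ := by
      by_contra hlt
      exact hpj t₁ (by omega) (p + h) (by omega) ht1
    refine ⟨t₁, by rw [heq t₁ htt]; exact ht1, fun j hj => ?_, fun j hj => ?_⟩
    · rcases le_or_gt j t with h3 | h3
      · exact hpj j h3 p le_rfl
      · rw [heq j h3.le]; exact hmin j hj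
    · exact (hprof j (hpr j hj)).trans (mul_le_mul_of_nonneg_right h2 hlp.le)

/-- the trajectories of almost all primes are straight until they are below `p ^ ε` -/
theorem straight {ε : ℝ} (hε : 0 < ε) : NoPrimes (fun p : ℕ => ¬ ∃ m0 : ℕ,
    Real.log ((Tn^[m0] p : ℕ) : ℝ) ≤ ε * Real.log p ∧
    ∀ m ≤ m0, |Real.log ((Tn^[m] p : ℕ) : ℝ) - Real.log p + mu * m| ≤ ε * Real.log p) := by
  set ε₁ : ℝ := min (ε / 2) (1 / 4) with hε₁
  have h0 : 0 < ε₁ := lt_min (by positivity) (by norm_num)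
  have h1 : ε₁ ≤ 1 / 4 := min_le_right _ _
  have h2 : 2 * ε₁ ≤ ε := by
    have : ε₁ ≤ ε / 2 := min_le_left _ _
    linarith
  refine noPrimes_of (Pool.Agent.H499R2.ND.prof_zd h0) (c₀ := ε₁ / 4) (by positivity) ?_
  filter_upwards [profile_transfer h0 h1] with N hN p hp hpN hpl hno h hh hhN ⟨t, ht, hT⟩
  obtain ⟨hp1, htp, hlp, hlq, hlq2, ht12, hprof⟩ := hN p hpN hpl h hhN t ht hT
  have hl2 := Real.log_two_gt_d9
  have hl2' := Real.log_two_lt_d9
  rintro ⟨m0, hm0, hpr⟩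
  apply hno
  refine ⟨m0, ?_, fun m hm => (hprof m (hpr m hm)).trans (mul_le_mul_of_nonneg_right h2 hlp.le)⟩
  have htm : t ≤ m0 := by
    by_contra hlt
    push Not at hlt
    have h3 := log_first (n := p + h) (k := m0) (by omega)
    have h4 : (m0 : ℝ) * Real.log 2 ≤ t * 1 :=
      mul_le_mul (by exact_mod_cast hlt.le) (by linarith) (by linarith) (Nat.cast_nonneg t)
    have h5 : ε₁ * Real.log ((p + h : ℕ) : ℝ) ≤ 1 / 4 * Real.log ((p + h : ℕ) : ℝ) :=
      mul_le_mul_of_nonneg_right h1 (by linarith)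
    have h6 := (abs_le.1 h3).1
    linarith
  have heq : Tn^[m0] p = Tn^[m0] (p + h) := by
    obtain ⟨i, rfl⟩ := Nat.exists_eq_add_of_le htm
    rw [add_comm, Function.iterate_add_apply, Function.iterate_add_apply, hT]
  rw [heq]
  refine hm0.trans ?_
  have h7 : ε₁ * Real.log ((p + h : ℕ) : ℝ) ≤ ε₁ * (4 / 3 * Real.log p) :=
    mul_le_mul_of_nonneg_left hlq2 h0.le
  have h8 := mul_le_mul_of_nonneg_right h2 hlp.le
  have h9 : 0 ≤ ε₁ * Real.log p := by positivity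
  linarith

/-! ### the window of the central limit theorem -/

theorem cdf_top {η : ℝ} (hη : 0 < η) : ∀ᶠ x : ℝ in atTop,
    1 - ProbabilityTheory.cdf (ProbabilityTheory.gaussianReal 0 1) x < η ∧
    ProbabilityTheory.cdf (ProbabilityTheory.gaussianReal 0 1) (-x) < η := by
  have h1 := ProbabilityTheory.tendsto_cdf_atTop (ProbabilityTheory.gaussianReal 0 1)
  have h2 := (ProbabilityTheory.tendsto_cdf_atBot (ProbabilityTheory.gaussianReal 0 1)).comp
    tendsto_neg_atTop_atBot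
  filter_upwards [h1.eventually (lt_mem_nhds (show 1 - η < 1 by linarith)),
    h2.eventually (gt_mem_nhds hη)] with x h3 h4
  exact ⟨by linarith, h4⟩

/-- `n` reaches `1` but its total stopping time is not in the window -/
def OutW (K : ℝ) (n : ℕ) : Prop := (∃ k, Tn^[k] n = 1) ∧ ¬ ∃ t : ℕ, Tn^[t] n = 1 ∧
  (∀ j < t, Tn^[j] n ≠ 1) ∧ |(t : ℝ) - 2 / Real.log (4 / 3) * Real.log n| ≤ K * √(Real.log n)

theorem outW_small {η : ℝ} (hη : 0 < η) : ∃ K : ℝ, 0 < K ∧ ∀ᶠ N : ℕ in atTop,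
    cnt (OutW K) N ≤ η * N := by
  obtain ⟨δ, hδ0, hδ1, _, hB, hlaw⟩ := Pool.Agent.H499R2.LT.law_one
  obtain ⟨x, ⟨hx1, hx2⟩, hx0⟩ := ((cdf_top (show 0 < η / 4 by positivity)).and
    (eventually_gt_atTop 0)).exists
  have hW := (hlaw 1 0 0 le_rfl).2
  set Φ := ProbabilityTheory.cdf (ProbabilityTheory.gaussianReal 0 1) with hΦ
  set W : ℝ → ℕ → Prop := fun x n => ∃ k : ℕ, (k : ℝ) ≤ 2 / Real.log (4 / 3) * Real.log n
          + x * (Real.log 3 * Real.sqrt (2 * Real.log n / Real.log (4 / 3) ^ 3)) ∧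
        (Tn^[k] n = 1 ∧ ∀ i < k, Tn^[i] n ≠ 1) ∧
        (k : ℤ) ≡ 0 [ZMOD (1 : ℕ)] ∧ (Pool.Agent.H499R2.LT.odn k n : ℤ) ≡ 0 [ZMOD (1 : ℕ)] with hWd
  have e1 : ∀ y, δ * Φ y / ((1 : ℕ) : ℝ) ^ 2 = δ * Φ y := by
    intro y
    rw [Nat.cast_one, one_pow, div_one]
  have h1 : Dn (W x) (δ * Φ x) := by
    have := hW x
    rwa [e1] at this
  have h2 : Dn (W (-x)) (δ * Φ (-x)) := by
    have := hW (-x)
    rwa [e1] at this
  have hl3 : 0 < Real.log 3 := Real.log_pos (by norm_num)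
  have hl43 : 0 < Real.log (4 / 3) := Real.log_pos (by norm_num)
  refine ⟨x * (Real.log 3 * √(2 / Real.log (4 / 3) ^ 3)), by positivity, ?_⟩
  have hBe := hB.eventually (gt_mem_nhds (show δ < δ + η / 8 by linarith))
  have h1e := h1.eventually (lt_mem_nhds (show δ * Φ x - η / 8 < δ * Φ x by linarith))
  have h2e := h2.eventually (gt_mem_nhds (show δ * Φ (-x) < δ * Φ (-x) + η / 8 by linarith))
  filter_upwards [hBe, h1e, h2e, eventually_ge_atTop 1] with N g1 g2 g3 hN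
  have hN0 : (0 : ℝ) < N := by exact_mod_cast hN
  rw [div_lt_iff₀ hN0] at g1 g3
  rw [lt_div_iff₀ hN0] at g2
  -- the decomposition
  have k1 : cnt (OutW (x * (Real.log 3 * √(2 / Real.log (4 / 3) ^ 3)))) N ≤
      cnt (fun n => (∃ k, Tn^[k] n = 1) ∧ ¬ W x n) N + cnt (W (-x)) N := by
    apply Pool.Agent.H499R2.ND.cnt_or
    rintro n hn _ ⟨hk, hno⟩
    by_cases hWx : W x n
    · right
      obtain ⟨k, hk1, ⟨hk2, hk3⟩, _, _⟩ := hWx
      refine ⟨k, ?_, ⟨hk2, hk3⟩, Int.modEq_one, Int.modEq_one⟩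
      by_contra hlt
      push Not at hlt
      apply hno
      refine ⟨k, hk2, hk3, ?_⟩
      have e : √(2 * Real.log n / Real.log (4 / 3) ^ 3) =
          √(2 / Real.log (4 / 3) ^ 3) * √(Real.log n) := by
        rw [← Real.sqrt_mul (by positivity)]
        congr 1
        ring
      rw [e] at hk1 hlt
      rw [abs_le]
      constructor <;> nlinarith
    · exact Or.inl ⟨hk, hWx⟩
  have k2 : cnt (fun n => (∃ k, Tn^[k] n = 1) ∧ ¬ W x n) N + cnt (W x) N ≤
      cnt (fun n => ∃ k, Tn^[k] n = 1) N := by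
    rw [cnt_eq, cnt_eq, cnt_eq]
    have hd : Disjoint ({n ∈ Icc 1 N | (∃ k, Tn^[k] n = 1) ∧ ¬ W x n} : Finset ℕ)
        ({n ∈ Icc 1 N | W x n} : Finset ℕ) := by
      rw [Finset.disjoint_left]
      intro n hn1 hn2
      rw [mem_filter] at hn1 hn2
      exact hn1.2.2 hn2.2
    have hu : ({n ∈ Icc 1 N | (∃ k, Tn^[k] n = 1) ∧ ¬ W x n} : Finset ℕ) ∪
        ({n ∈ Icc 1 N | W x n} : Finset ℕ) ⊆ ({n ∈ Icc 1 N | ∃ k, Tn^[k] n = 1} : Finset ℕ) := by
      intro n hn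
      rw [mem_union, mem_filter, mem_filter] at hn
      rw [mem_filter]
      rcases hn with hn | hn
      · exact ⟨hn.1, hn.2.1⟩
      · obtain ⟨k, _, ⟨hk, _⟩, _⟩ := hn.2
        exact ⟨hn.1, k, hk⟩
    have h5 := card_le_card hu
    rw [card_union_of_disjoint hd] at h5
    exact_mod_cast h5
  have hΦ0 : 0 ≤ Φ (-x) := ProbabilityTheory.cdf_nonneg _ _
  have k3 : δ * (1 - Φ x) ≤ 1 * (η / 4) := mul_le_mul hδ1 hx1.le
    (by have := ProbabilityTheory.cdf_le_one (ProbabilityTheory.gaussianReal 0 1) x; linarith)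
    (by norm_num)
  have k4 : δ * Φ (-x) ≤ 1 * (η / 4) := mul_le_mul hδ1 hx2.le hΦ0 (by norm_num)
  have k5 : (δ + η / 8) * N - (δ * Φ x - η / 8) * N + (δ * Φ (-x) + η / 8) * N ≤ η * N := by
    have : (δ + η / 8) - (δ * Φ x - η / 8) + (δ * Φ (-x) + η / 8) ≤ η := by linarith
    calc _ = ((δ + η / 8) - (δ * Φ x - η / 8) + (δ * Φ (-x) + η / 8)) * N := by ring
      _ ≤ η * N := mul_le_mul_of_nonneg_right this hN0.le
  linarith

/-- all but a small proportion of the primes which reach `1` have a total stopping time in the window -/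
theorem window {ε : ℝ} (hε : 0 < ε) : ∃ K : ℝ, 0 < K ∧ ∀ᶠ N : ℕ in atTop,
    (#{p ∈ Icc 1 N | p.Prime ∧ OutW K p} : ℝ) ≤ ε * Nat.primeCounting N := by
  obtain ⟨η, hη, hfew⟩ := fewPrimes_of (c₀ := 1 / 4 / 4) hε (by norm_num)
  obtain ⟨K, hK, hout⟩ := outW_small hη
  have hl43 : 0 < Real.log (4 / 3) := Real.log_pos (by norm_num)
  refine ⟨2 * K + 2 / Real.log (4 / 3), by positivity, hfew _ _ hout ?_⟩
  have hcast : Tendsto (fun N : ℕ => Real.log (N : ℝ)) atTop atTop :=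
    Real.tendsto_log_atTop.comp tendsto_natCast_atTop_atTop
  filter_upwards [profile_transfer (ε := 1 / 4) (by norm_num) le_rfl,
    hcast.eventually_ge_atTop 4, eventually_ge_atTop 2] with N hN hN4 hN2 p hp hpN hpl hno h hh hhN
  rintro ⟨t, ht, hT⟩
  obtain ⟨hp1, htp, hlp, hlq, hlq2, _, _⟩ := hN p hpN hpl h hhN t ht hT
  obtain ⟨⟨k, hk⟩, hno⟩ := hno
  have hpj : ∀ j ≤ t, ∀ m : ℕ, p ≤ m → Tn^[j] m ≠ 1 := by
    intro j hj m hm h3
    have h4 := le_of_reach h3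
    have h5 : 2 ^ j ≤ 2 ^ t := Nat.pow_le_pow_right (by norm_num) hj
    omega
  have heq : ∀ j, t ≤ j → Tn^[j] p = Tn^[j] (p + h) := by
    intro j hj
    obtain ⟨i, rfl⟩ := Nat.exists_eq_add_of_le hj
    rw [add_comm, Function.iterate_add_apply, Function.iterate_add_apply, hT]
  refine ⟨⟨k, ?_⟩, fun hex => hno ?_⟩
  · have htk : t ≤ k := by
      by_contra hlt
      exact hpj k (by omega) p le_rfl hk
    rw [← heq k htk]
    exact hk
  · obtain ⟨t₁, ht1, hmin, hpr⟩ := hex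
    have htt : t ≤ t₁ := by
      by_contra hlt
      exact hpj t₁ (by omega) (p + h) (by omega) ht1
    refine ⟨t₁, by rw [heq t₁ htt]; exact ht1, fun j hj => ?_, ?_⟩
    · rcases le_or_gt j t with h3 | h3
      · exact hpj j h3 p le_rfl
      · rw [heq j h3.le]; exact hmin j hj
    · -- comparison of the logarithms
      have hN0 : (0 : ℝ) < N := by positivity
      have hp0 : (0 : ℝ) < p := by exact_mod_cast hp1
      have hl2' := Real.log_two_lt_d9
      have hq : Real.log ((p + h : ℕ) : ℝ) ≤ Real.log p + 1 := by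
        have h3 : ((p + h : ℕ) : ℝ) ≤ p * 2 := by
          push_cast
          linarith
        have h4 : Real.log ((p + h : ℕ) : ℝ) ≤ Real.log (p * 2) :=
          Real.log_le_log (by have : 0 < p + h := by omega
                              exact_mod_cast this) h3
        rw [Real.log_mul hp0.ne' (by norm_num)] at h4
        linarith
      have hlp1 : 1 ≤ Real.log p := by
        have h3 := Real.log_le_log (show (0 : ℝ) < (N : ℝ) ^ (3 / 4 : ℝ) by positivity) hpl.le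
        rw [Real.log_rpow hN0] at h3
        linarith
      have hs1 : 1 ≤ √(Real.log p) := Real.one_le_sqrt.2 hlp1
      have hs2 : √(Real.log ((p + h : ℕ) : ℝ)) ≤ 2 * √(Real.log p) := by
        rw [show (2 : ℝ) * √(Real.log p) = √(4 * Real.log p) by
          rw [Real.sqrt_mul (by norm_num), show (4 : ℝ) = 2 ^ 2 by norm_num,
            Real.sqrt_sq (by norm_num)]]
        exact Real.sqrt_le_sqrt (by linarith)
      have h5 : K * √(Real.log ((p + h : ℕ) : ℝ)) ≤ K * (2 * √(Real.log p)) :=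
        mul_le_mul_of_nonneg_left hs2 hK.le
      have h6 : 0 < 2 / Real.log (4 / 3) := by positivity
      have h7 : 2 / Real.log (4 / 3) * Real.log p ≤
          2 / Real.log (4 / 3) * Real.log ((p + h : ℕ) : ℝ) := mul_le_mul_of_nonneg_left hlq h6.le
      have h8 : 2 / Real.log (4 / 3) * Real.log ((p + h : ℕ) : ℝ) ≤
          2 / Real.log (4 / 3) * (Real.log p + 1) := mul_le_mul_of_nonneg_left hq h6.le
      have h9 : 2 / Real.log (4 / 3) * 1 ≤ 2 / Real.log (4 / 3) * √(Real.log p) :=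
        mul_le_mul_of_nonneg_left hs1 h6.le
      rw [abs_le] at hpr ⊢
      constructor <;> nlinarith [hpr.1, hpr.2]

end Pool.Agent.H33.PD
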