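import Pool.Agent.H33.PD.F
import Pool.Agent.H33.G.R_pool_sql_team_seeded_efc1946e.K1H87.PR.Unif

/-! The number of the steps of the Collatz function `C` at the primes. -/

set_option autoImplicit false

namespace Pool.Agent.H33.PD.L

open Finset Filter Topology Pool.Agent.H33.PD
open Pool.Agent.H499R2.ND (Tn Bas Bas_inv)
open Pool.Agent.H319R2.Lln (mu)

/-- the Collatz function -/
def C (n : ℕ) : ℕ := if n % 2 = 0 then n / 2 else 3 * n + 1

/-- `l` is the least number of steps from `n` to `1` -/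
def Tot (n l : ℕ) : Prop := C^[l] n = 1 ∧ ∀ j < l, C^[j] n ≠ 1

/-- the number of the odd terms before the time `k` -/
def od : ℕ → ℕ → ℕ
  | 0, _ => 0
  | k + 1, n => n % 2 + od k (Tn n)

theorem Tn_eq (n : ℕ) : Tn n = if n % 2 = 0 then n / 2 else (3 * n + 1) / 2 := rfl

theorem tot_succ {n l : ℕ} (hn : n ≠ 1) (h : Tot (C n) l) : Tot n (l + 1) := by
  refine ⟨by rw [Function.iterate_succ_apply]; exact h.1, ?_⟩
  intro j hj
  cases j with
  | zero => simpa using hn
  | succ j =>
    rw [Function.iterate_succ_apply]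
    exact h.2 j (by omega)

theorem tot_of : ∀ (k n : ℕ), 1 ≤ n → Tn^[k] n = 1 → (∀ j < k, Tn^[j] n ≠ 1) → Tot n (k + od k n)
  | 0, n, _, h, _ => by
      refine ⟨by simpa [od] using h, ?_⟩
      intro j hj
      simp [od] at hj
  | k + 1, n, hn, h, hmin => by
      have hn1 : n ≠ 1 := by simpa using hmin 0 (by omega)
      have hT1 : 1 ≤ Tn n := by
        rw [Tn_eq]; split_ifs <;> omega
      have ih := tot_of k (Tn n) hT1 (by rwa [Function.iterate_succ_apply] at h) (fun j hj => by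
        have := hmin (j + 1) (by omega)
        rwa [Function.iterate_succ_apply] at this)
      rcases Nat.mod_two_eq_zero_or_one n with h0 | h1
      · have e : C n = Tn n := by unfold C; rw [Tn_eq, if_pos h0, if_pos h0]
        have h2 := tot_succ hn1 (by rw [e]; exact ih)
        rw [od, h0]
        convert h2 using 1
        omega
      · have e : C n = 3 * n + 1 := by unfold C; rw [if_neg (by omega)]
        have e2 : C (3 * n + 1) = Tn n := by
          unfold C; rw [Tn_eq, if_pos (by omega), if_neg (by omega)]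
        have h2 : Tot (3 * n + 1) (k + od k (Tn n) + 1) :=
          tot_succ (by omega) (by rw [e2]; exact ih)
        have h3 := tot_succ hn1 (by rw [e]; exact h2)
        rw [od, h1]
        convert h3 using 1
        omega

theorem reach_of : ∀ (m n : ℕ), C^[m] n = 1 → ∃ k, Tn^[k] n = 1 := by
  intro m
  induction m using Nat.strong_induction_on with
  | _ m ih =>
    intro n h
    by_cases hn1 : n = 1
    · exact ⟨0, by simpa using hn1⟩
    have hm : m ≠ 0 := by rintro rfl; exact hn1 (by simpa using h)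
    obtain ⟨m', rfl⟩ : ∃ m', m = m' + 1 := ⟨m - 1, by omega⟩
    rw [Function.iterate_succ_apply] at h
    rcases Nat.mod_two_eq_zero_or_one n with h0 | h1
    · have e : C n = Tn n := by unfold C; rw [Tn_eq, if_pos h0, if_pos h0]
      rw [e] at h
      obtain ⟨k, hk⟩ := ih m' (by omega) _ h
      exact ⟨k + 1, by rw [Function.iterate_succ_apply]; exact hk⟩
    · have e : C n = 3 * n + 1 := by unfold C; rw [if_neg (by omega)]
      rw [e] at h
      have hm' : m' ≠ 0 := by
        rintro rfl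
        simp only [Function.iterate_zero, id] at h
        have : n = 0 := by omega
        omega
      obtain ⟨m'', rfl⟩ : ∃ m'', m' = m'' + 1 := ⟨m' - 1, by omega⟩
      have e2 : C (3 * n + 1) = Tn n := by
        unfold C; rw [Tn_eq, if_pos (by omega), if_neg (by omega)]
      rw [Function.iterate_succ_apply, e2] at h
      obtain ⟨k, hk⟩ := ih m'' (by omega) _ h
      exact ⟨k + 1, by rw [Function.iterate_succ_apply]; exact hk⟩

/-- `3 ^ od * n ≤ 2 ^ k * T ^ k n` -/
theorem od_upper : ∀ (k n : ℕ), 3 ^ (od k n) * n ≤ 2 ^ k * Tn^[k] n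
  | 0, n => by simp [od]
  | k + 1, n => by
      have ih := od_upper k (Tn n)
      rw [od, Function.iterate_succ_apply, pow_add, pow_succ]
      rcases Nat.mod_two_eq_zero_or_one n with h0 | h1
      · have e : 2 * Tn n = n := by rw [Tn_eq, if_pos h0]; omega
        rw [h0, pow_zero, one_mul]
        calc 3 ^ od k (Tn n) * n = 2 * (3 ^ od k (Tn n) * Tn n) := by nth_rewrite 2 [← e]; ring
          _ ≤ 2 * (2 ^ k * Tn^[k] (Tn n)) := by gcongr
          _ = _ := by ring
      · have e : 2 * Tn n = 3 * n + 1 := by rw [Tn_eq, if_neg (by omega)]; omega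
        rw [h1, pow_one]
        calc 3 * 3 ^ od k (Tn n) * n ≤ 3 ^ od k (Tn n) * (3 * n + 1) := by nlinarith [pow_pos (show 0 < 3 by norm_num) (od k (Tn n))]
          _ = 2 * (3 ^ od k (Tn n) * Tn n) := by rw [← e]; ring
          _ ≤ 2 * (2 ^ k * Tn^[k] (Tn n)) := by gcongr
          _ = _ := by ring

/-- the reverse inequality as long as the terms are at least `R` -/
theorem od_lower {R : ℝ} (hR : 1 ≤ R) : ∀ (k n : ℕ), (∀ j < k, R ≤ (Tn^[j] n : ℕ)) →
    (2 : ℝ) ^ k * (Tn^[k] n : ℕ) ≤ 3 ^ (od k n) * n * (1 + 1 / R) ^ k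
  | 0, n, _ => by simp [od]
  | k + 1, n, h => by
      have hR0 : 0 < R := by linarith
      have ih := od_lower hR k (Tn n) (fun j hj => by
        have := h (j + 1) (by omega)
        rwa [Function.iterate_succ_apply] at this)
      have h0 : R ≤ (n : ℝ) := by simpa using h 0 (by omega)
      rw [od, Function.iterate_succ_apply, pow_add (3 : ℝ), pow_succ (2 : ℝ) k]
      have hp : (0 : ℝ) < 3 ^ od k (Tn n) := by positivity
      have hq : (1 : ℝ) ≤ (1 + 1 / R) := by
        have : 0 < 1 / R := by positivity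
        linarith
      have hqk : (0 : ℝ) < (1 + 1 / R) ^ k := by positivity
      rcases Nat.mod_two_eq_zero_or_one n with h1 | h1
      · have e : 2 * (Tn n : ℝ) = n := by
          have : 2 * Tn n = n := by rw [Tn_eq, if_pos h1]; omega
          exact_mod_cast this
        rw [h1, pow_zero, one_mul]
        calc 2 ^ k * 2 * ((Tn^[k] (Tn n) : ℕ) : ℝ) = 2 * (2 ^ k * (Tn^[k] (Tn n) : ℕ)) := by ring
          _ ≤ 2 * (3 ^ od k (Tn n) * (Tn n : ℕ) * (1 + 1 / R) ^ k) := by gcongr
          _ = (3 ^ od k (Tn n) * (2 * (Tn n : ℝ)) * (1 + 1 / R) ^ k) * 1 := by ring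
          _ ≤ (3 ^ od k (Tn n) * (2 * (Tn n : ℝ)) * (1 + 1 / R) ^ k) * (1 + 1 / R) := by gcongr
          _ = _ := by rw [e, pow_succ]; ring
      · have e : 2 * (Tn n : ℝ) = 3 * n + 1 := by
          have : 2 * Tn n = 3 * n + 1 := by rw [Tn_eq, if_neg (by omega)]; omega
          exact_mod_cast this
        have h2 : (3 : ℝ) * n + 1 ≤ 3 * n * (1 + 1 / R) := by
          have : (1 : ℝ) ≤ n * (1 / R) := by
            rw [mul_one_div, le_div_iff₀ hR0]; linarith
          nlinarith
        rw [h1, pow_one]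
        calc 2 ^ k * 2 * ((Tn^[k] (Tn n) : ℕ) : ℝ) = 2 * (2 ^ k * (Tn^[k] (Tn n) : ℕ)) := by ring
          _ ≤ 2 * (3 ^ od k (Tn n) * (Tn n : ℕ) * (1 + 1 / R) ^ k) := by gcongr
          _ = 3 ^ od k (Tn n) * (2 * (Tn n : ℝ)) * (1 + 1 / R) ^ k := by ring
          _ ≤ 3 ^ od k (Tn n) * (3 * n * (1 + 1 / R)) * (1 + 1 / R) ^ k := by rw [e]; gcongr
          _ = _ := by rw [pow_succ]; ring

theorem od_mono (n : ℕ) : ∀ {j k : ℕ}, j ≤ k → od j n ≤ od k n := by
  have h : ∀ (k m : ℕ), od k m ≤ od (k + 1) m := by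
    intro k
    induction k with
    | zero => intro m; simp [od]
    | succ k ih =>
      intro m
      have := ih (Tn m)
      simp only [od] at this ⊢
      omega
  intro j k hjk
  induction hjk with
  | refl => exact le_rfl
  | step _ ih => exact ih.trans (h _ _)

/-- `mu = log (4/3) / 2` -/
theorem mu_val : mu = Real.log (4 / 3) / 2 := by unfold mu; ring

theorem log43 : (0.287 : ℝ) < Real.log (4 / 3) ∧ Real.log (4 / 3) < 0.288 := by
  have e : Real.log (4 / 3) = 2 * Real.log 2 - Real.log 3 := by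
    rw [Real.log_div (by norm_num) (by norm_num), show (4 : ℝ) = 2 ^ 2 by norm_num, Real.log_pow]
    norm_num
  constructor
  · rw [Real.lt_log_iff_exp_lt (by norm_num)]
    have h := Real.exp_bound' (x := 0.287) (by norm_num) (by norm_num) (n := 5) (by norm_num)
    refine lt_of_le_of_lt h ?_
    norm_num [Finset.sum_range_succ, Nat.factorial]
  · rw [Real.log_lt_iff_lt_exp (by norm_num)]
    have h := Real.sum_le_exp_of_nonneg (x := 0.288) (by norm_num) 5
    refine lt_of_lt_of_le ?_ h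
    norm_num [Finset.sum_range_succ, Nat.factorial]

theorem logs : (0.693 : ℝ) < Real.log 2 ∧ Real.log 2 < 0.6932 ∧ Real.log 2 < Real.log 3 ∧
    Real.log (4 / 3) = 2 * Real.log 2 - Real.log 3 := by
  refine ⟨by linarith [Real.log_two_gt_d9], by linarith [Real.log_two_lt_d9],
    Real.log_lt_log (by norm_num) (by norm_num), ?_⟩
  rw [Real.log_div (by norm_num) (by norm_num), show (4 : ℝ) = 2 ^ 2 by norm_num, Real.log_pow]
  norm_num

/-- a straight trajectory has the typical number of steps -/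
theorem steps_of_straight {ε : ℝ} (hε : 0 < ε) (hε1 : ε ≤ 1 / 4) : ∃ P₀ : ℕ, ∀ p : ℕ, P₀ ≤ p → ∀ t : ℕ,
    Tn^[t] p = 1 → (∀ j ≤ t, |Real.log ((Tn^[j] p : ℕ) : ℝ) - Real.log p + mu * j| ≤ ε * Real.log p) →
    |((t + od t p : ℕ) : ℝ) / Real.log p - 3 / Real.log (4 / 3)| ≤ 25 * ε := by
  have hev : ∀ᶠ L : ℝ in atTop, 1 ≤ ε * L ∧ 7 * L * Real.exp (-(ε * L)) ≤ ε * L := by
    have h1 : Tendsto (fun L : ℝ => ε * L) atTop atTop := tendsto_id.const_mul_atTop hε
    have h2 : Tendsto (fun L : ℝ => Real.exp (ε * L)) atTop atTop := Real.tendsto_exp_atTop.comp h1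
    filter_upwards [h1.eventually_ge_atTop 1, h2.eventually_ge_atTop (7 / ε), eventually_gt_atTop 0]
      with L h3 h4 h5
    refine ⟨h3, ?_⟩
    rw [Real.exp_neg, ← div_eq_mul_inv, div_le_iff₀ (Real.exp_pos _)]
    rw [div_le_iff₀ hε] at h4
    nlinarith
  obtain ⟨L₀, hL₀⟩ := eventually_atTop.1 hev
  obtain ⟨P₀, hP₀⟩ := exists_nat_ge (Real.exp (max L₀ 1))
  refine ⟨P₀, fun p hp t ht hprof => ?_⟩
  have hpR : Real.exp (max L₀ 1) ≤ p := hP₀.trans (by exact_mod_cast hp)
  have hp0 : (0 : ℝ) < p := (Real.exp_pos _).trans_le hpR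
  set L := Real.log p with hL
  have hLm : max L₀ 1 ≤ L := (Real.le_log_iff_exp_le hp0).2 hpR
  have hL1 : 1 ≤ L := (le_max_right _ _).trans hLm
  obtain ⟨g1, g2⟩ := hL₀ L ((le_max_left _ _).trans hLm)
  obtain ⟨l2a, l2b, l23, l43⟩ := logs
  obtain ⟨a1, a2⟩ := log43
  set a := Real.log (4 / 3) with ha
  set l2 := Real.log 2 with hl2
  set l3 := Real.log 3 with hl3
  have hmu : mu = a / 2 := mu_val
  -- the time
  have h1 := hprof t le_rfl
  rw [ht, Nat.cast_one, Real.log_one, zero_sub, hmu, abs_le] at h1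
  have ht1 : a * t ≤ 2 * (1 + ε) * L := by linarith [h1.2]
  have ht2 : 2 * (1 - ε) * L ≤ a * t := by linarith [h1.1]
  -- the upper bound
  have hup : (od t p : ℝ) * l3 ≤ t * l2 - L := by
    have h2 := od_upper t p
    rw [ht, mul_one] at h2
    have h3 : (3 : ℝ) ^ (od t p) * p ≤ 2 ^ t := by exact_mod_cast h2
    have h4 := Real.log_le_log (by positivity) h3
    rw [Real.log_mul (by positivity) hp0.ne', Real.log_pow, Real.log_pow] at h4
    linarith
  -- the lower bound
  set m := ⌊2 * (1 - 2 * ε) * L / a⌋₊ with hm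
  have ha0 : 0 < a := by linarith
  have hm1 : (m : ℝ) ≤ 2 * (1 - 2 * ε) * L / a := Nat.floor_le (by
    have : 0 ≤ 1 - 2 * ε := by linarith
    positivity)
  have hm2 : 2 * (1 - 2 * ε) * L / a < m + 1 := Nat.lt_floor_add_one _
  rw [le_div_iff₀ ha0] at hm1
  rw [div_lt_iff₀ ha0] at hm2
  have hmt : m ≤ t := by
    by_contra hcon
    push Not at hcon
    have h2 : (t : ℝ) < m := by exact_mod_cast hcon
    have h3 : a * t < a * m := mul_lt_mul_of_pos_left h2 ha0
    nlinarith
  have hR1 : 1 ≤ Real.exp (ε * L) := Real.one_le_exp (by positivity)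
  have hTpos : ∀ j, (0 : ℝ) < ((Tn^[j] p : ℕ) : ℝ) := by
    intro j
    have : 1 ≤ p := by
      have h2 : (1 : ℝ) ≤ p := le_trans (Real.one_le_exp (le_trans zero_le_one (le_max_right _ _))) hpR
      exact_mod_cast h2
    exact_mod_cast Pool.Agent.H499R2.ND.Tn_iter_pos this j
  have hge : ∀ j < m, Real.exp (ε * L) ≤ (Tn^[j] p : ℕ) := by
    intro j hj
    rw [← Real.le_log_iff_exp_le (hTpos j)]
    have h2 := (abs_le.1 (hprof j (by omega))).1
    have h3 : (j : ℝ) ≤ m := by exact_mod_cast hj.le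
    have h4 : a * j ≤ a * m := mul_le_mul_of_nonneg_left h3 ha0.le
    rw [hmu] at h2
    nlinarith
  have hlow : (m : ℝ) * l2 - L ≤ (od t p : ℝ) * l3 := by
    have h2 := od_lower hR1 m p hge
    have h3 : (0 : ℝ) < 2 ^ m * (Tn^[m] p : ℕ) := mul_pos (by positivity) (hTpos m)
    have h4 := Real.log_le_log h3 h2
    rw [Real.log_mul (by positivity) (hTpos m).ne', Real.log_mul (by positivity) (by positivity),
      Real.log_mul (by positivity) hp0.ne', Real.log_pow, Real.log_pow, Real.log_pow] at h4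
    have h5 : (m : ℝ) * Real.log (1 + 1 / Real.exp (ε * L)) ≤ ε * L := by
      have h6 : Real.log (1 + 1 / Real.exp (ε * L)) ≤ Real.exp (-(ε * L)) := by
        rw [Real.exp_neg, ← one_div]
        have := Real.log_le_sub_one_of_pos (show 0 < 1 + 1 / Real.exp (ε * L) by positivity)
        linarith
      have h7 : (m : ℝ) ≤ 7 * L := by nlinarith
      calc (m : ℝ) * Real.log (1 + 1 / Real.exp (ε * L)) ≤ m * Real.exp (-(ε * L)) :=
            mul_le_mul_of_nonneg_left h6 (Nat.cast_nonneg m)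
        _ ≤ 7 * L * Real.exp (-(ε * L)) := mul_le_mul_of_nonneg_right h7 (Real.exp_pos _).le
        _ ≤ ε * L := g2
    have h6 : ε * L ≤ Real.log ((Tn^[m] p : ℕ) : ℝ) := by
      have h7 := (abs_le.1 (hprof m hmt)).1
      rw [hmu] at h7
      nlinarith
    have h7 : (od m p : ℝ) ≤ od t p := by exact_mod_cast od_mono p hmt
    have h8 : (od m p : ℝ) * l3 ≤ od t p * l3 := mul_le_mul_of_nonneg_right h7 (by linarith)
    linarith
  -- together
  have hl3 : 0 < l3 := by linarith
  have hL0 : 0 < L := by linarith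
  have e0 : ((t + od t p : ℕ) : ℝ) = t + od t p := by push_cast; ring
  have u1 : a * ((t : ℝ) + od t p) ≤ (3 + 4 * ε) * L := by
    have h2 : l3 * (a * ((t : ℝ) + od t p)) ≤ l3 * ((3 + 4 * ε) * L) := by
      have h3 : a * ((od t p : ℝ) * l3) ≤ a * (t * l2 - L) := mul_le_mul_of_nonneg_left hup ha0.le
      have h4 : (l3 + l2) * (a * t) ≤ (l3 + l2) * (2 * (1 + ε) * L) :=
        mul_le_mul_of_nonneg_left ht1 (by linarith)
      have h5 : ε * L * l2 ≤ ε * L * l3 := mul_le_mul_of_nonneg_left l23.le (by positivity)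
      calc l3 * (a * ((t : ℝ) + od t p)) = l3 * (a * t) + a * ((od t p : ℝ) * l3) := by ring
        _ ≤ l3 * (a * t) + a * (t * l2 - L) := by linarith
        _ = (l3 + l2) * (a * t) - a * L := by ring
        _ ≤ (l3 + l2) * (2 * (1 + ε) * L) - (2 * l2 - l3) * L := by rw [← l43]; linarith
        _ = 3 * L * l3 + 2 * (ε * L * l3) + 2 * (ε * L * l2) := by ring
        _ ≤ l3 * ((3 + 4 * ε) * L) := by linarith
    exact le_of_mul_le_mul_left h2 hl3
  have u2 : (3 - 7 * ε) * L ≤ a * ((t : ℝ) + od t p) := by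
    have h2 : l3 * ((3 - 7 * ε) * L) ≤ l3 * (a * ((t : ℝ) + od t p)) := by
      have h3 : a * (m * l2 - L) ≤ a * ((od t p : ℝ) * l3) := mul_le_mul_of_nonneg_left hlow ha0.le
      have h4 : l3 * (2 * (1 - ε) * L) ≤ l3 * (a * t) := mul_le_mul_of_nonneg_left ht2 hl3.le
      have h5 : l2 * (2 * (1 - 2 * ε) * L - a) ≤ l2 * (a * m) :=
        mul_le_mul_of_nonneg_left (by linarith) (by linarith)
      have h6 : ε * L * l2 ≤ ε * L * l3 := mul_le_mul_of_nonneg_left l23.le (by positivity)
      have h7 : l2 * a ≤ ε * L * l3 := by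
        have h8 : l2 * a ≤ l2 * 1 := mul_le_mul_of_nonneg_left (by linarith) (by linarith)
        have h9 : 1 * l3 ≤ ε * L * l3 := mul_le_mul_of_nonneg_right g1 hl3.le
        linarith
      calc l3 * ((3 - 7 * ε) * L) = 3 * L * l3 - 7 * (ε * L * l3) := by ring
        _ ≤ l3 * (2 * (1 - ε) * L) + l2 * (2 * (1 - 2 * ε) * L - a) - (2 * l2 - l3) * L := by linarith
        _ = l3 * (2 * (1 - ε) * L) + l2 * (2 * (1 - 2 * ε) * L - a) - a * L := by rw [l43]
        _ ≤ l3 * (a * t) + l2 * (a * m) - a * L := by linarith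
        _ = l3 * (a * t) + a * (m * l2 - L) := by ring
        _ ≤ l3 * (a * t) + a * ((od t p : ℝ) * l3) := by linarith
        _ = _ := by ring
    exact le_of_mul_le_mul_left h2 hl3
  rw [e0]
  have e1 : ((t : ℝ) + od t p) / L - 3 / a = (a * ((t : ℝ) + od t p) - 3 * L) / (a * L) := by
    field_simp
  rw [e1, abs_div, abs_of_pos (show 0 < a * L by positivity), div_le_iff₀ (by positivity), abs_le]
  have h9 : 7 * (ε * L) ≤ 25 * ε * (a * L) := by
    have : 0 ≤ ε * L := by positivity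
    nlinarith
  constructor <;> linarith

/-- bounded primes do not matter -/
theorem noPrimes_small (P₀ : ℕ) : NoPrimes (fun p => p < P₀) := by
  intro ε hε
  have h1 : Tendsto (fun N : ℕ => ε * (Nat.primeCounting N : ℝ)) atTop atTop :=
    (tendsto_natCast_atTop_atTop.comp Nat.tendsto_primeCounting).const_mul_atTop hε
  filter_upwards [h1.eventually_ge_atTop (P₀ : ℝ)] with N hN
  refine le_trans ?_ hN
  have h2 : ({p ∈ Icc 1 N | p.Prime ∧ p < P₀} : Finset ℕ) ⊆ range P₀ := by
    intro p hp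
    rw [mem_range]
    exact (mem_filter.1 hp).2.2
  have h3 := card_le_card h2
  rw [card_range] at h3
  refine le_trans (le_of_eq ?_) (Nat.cast_le.2 h3)
  congr!

/-- THE NUMBER OF THE STEPS AT THE PRIMES -/
theorem steps_of_primes {ε : ℝ} (hε : 0 < ε) : NoPrimes (fun p => (∃ l, C^[l] p = 1) ∧
    ¬ ∃ l : ℕ, Tot p l ∧ |(l : ℝ) / Real.log p - 3 / Real.log (4 / 3)| ≤ ε) := by
  have h0 : 0 < min (ε / 25) (1 / 4) := lt_min (by positivity) (by norm_num)
  obtain ⟨P₀, hP₀⟩ := steps_of_straight h0 (min_le_right _ _)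
  refine ((straight_to_one h0).or (noPrimes_small P₀)).mono ?_
  rintro p hp ⟨⟨l, hl⟩, hno⟩
  by_cases hpp : p < P₀
  · exact Or.inr hpp
  · refine Or.inl ⟨reach_of l p hl, ?_⟩
    rintro ⟨t, ht, hmin, hprof⟩
    apply hno
    refine ⟨t + od t p, tot_of t p hp.one_lt.le ht hmin, ?_⟩
    refine (hP₀ p (by omega) t ht hprof).trans ?_
    have := min_le_left (ε / 25) (1 / 4)
    linarith

end Pool.Agent.H33.PD.L
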